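import Pool.Agent.Run7.h144.Tree
import Pool.Agent.W684.FM.Ambient

/-!
# The usual form of Martin's axiom for preorders with property (K)
-/

set_option autoImplicit false

namespace Run7.h144

open Classical Cardinal Pool.Agent.W684 Pool.Agent.W684.FM

/-- Property (K): every uncountable set of conditions has an uncountable subset of pairwise
compatible conditions (a smaller condition is stronger). -/
def HasPropertyK (P : Type) [Preorder P] : Prop :=
  ∀ A : Set P, ¬ A.Countable → ∃ B ⊆ A, ¬ B.Countable ∧ ∀ p ∈ B, ∀ q ∈ B, ∃ r : P, r ≤ p ∧ r ≤ q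

/-- Martin's axiom for `ℵ₁` dense sets and preordered sets with property (K): for every nonempty
preordered set `P` with property (K) and every family of at most `ℵ₁` dense subsets of `P` there
is a filter in `P` which meets each of them. -/
def MartinK : Prop :=
  ∀ (P : Type) [Preorder P] [Nonempty P], HasPropertyK P →
    ∀ 𝒟 : Set (Set P), #𝒟 ≤ ℵ₁ → (∀ D ∈ 𝒟, ∀ p : P, ∃ q ∈ D, q ≤ p) →
      ∃ G : Set P, G.Nonempty ∧ (∀ p ∈ G, ∀ q : P, p ≤ q → q ∈ G) ∧
        (∀ p ∈ G, ∀ q ∈ G, ∃ r ∈ G, r ≤ p ∧ r ≤ q) ∧ ∀ D ∈ 𝒟, (G ∩ D).Nonempty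

theorem martinK_of_martinKFor (h : MartinKFor Om1) : MartinK := by
  intro P _ _ hP 𝒟 h𝒟' hdense
  have hX1 : #Om1 = ℵ₁ := Cardinal.mk_ord_toType _
  have h𝒟 : #𝒟 ≤ #Om1 := by rw [hX1]; exact h𝒟'
  let w : P → P → P := fun p q => if h : ∃ r, r ≤ p ∧ r ≤ q then h.choose else p
  have hw : ∀ p q, (∃ r, r ≤ p ∧ r ≤ q) → w p q ≤ p ∧ w p q ≤ q := by
    intro p q h
    simp only [w, dif_pos h]
    exact h.choose_spec
  have hd' : ∀ i : 𝒟, ∀ p : P, ∃ q ∈ i.1, q ≤ p := fun i p => hdense i.1 i.2 p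
  choose d hd1 hd2 using hd'
  obtain ⟨Q, hp0, hQ, hQw, hQd⟩ := exists_closed (X := Om1) h𝒟 (Classical.arbitrary P) w d
  obtain ⟨f, hf⟩ : ∃ f : Om1 → Q, Function.Surjective f := by
    obtain ⟨e⟩ := hQ
    have : Nonempty Q := ⟨⟨_, hp0⟩⟩
    exact ⟨Function.invFun e, Function.invFun_surjective e.injective⟩
  obtain ⟨g, hg⟩ : ∃ g : Om1 → Set Q, (∀ D ∈ 𝒟, ∃ i, g i = {q | q.1 ∈ D}) ∧
      ∀ i, ∀ q : Q, ∃ r ∈ g i, r ≤ q := by
    obtain ⟨e⟩ := h𝒟
    refine ⟨fun x => if h : ∃ i, e i = x then {q | q.1 ∈ h.choose.1} else Set.univ, ?_, ?_⟩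
    · intro D hD
      refine ⟨e ⟨D, hD⟩, ?_⟩
      have h1 : ∃ i, e i = e ⟨D, hD⟩ := ⟨_, rfl⟩
      have h2 := e.injective h1.choose_spec
      simp only [dif_pos h1, h2]
    · intro x q
      by_cases h1 : ∃ i, e i = x
      · simp only [dif_pos h1]
        exact ⟨⟨d h1.choose q.1, hQd _ _ q.2⟩, hd1 _ _, hd2 _ _⟩
      · simp only [dif_neg h1]
        exact ⟨q, trivial, le_rfl⟩
  have hkn : Knaster fun x y => f x ≤ f y := by
    intro Z k hZ
    by_cases hrep : ∃ p : P, ∀ a, ∃ b, a < b ∧ (Z b ∧ (f (k b)).1 = p)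
    · obtain ⟨p, hp⟩ := hrep
      refine ⟨fun b => Z b ∧ (f (k b)).1 = p, hp, fun a ha => ha.1, ?_⟩
      intro a b ha hb
      exact ⟨k a, le_rfl, (show (f (k a)).1 ≤ (f (k b)).1 from (ha.2.trans hb.2.symm).le)⟩
    push Not at hrep
    choose bd hbd using hrep
    have hA : ¬ ((fun a => (f (k a)).1) '' {a | Z a}).Countable := by
      intro hc
      obtain ⟨a, ha⟩ := exists_bound_set (hc.image bd)
      obtain ⟨b, hab, hb⟩ := hZ a
      have h1 := ha _ ⟨_, ⟨b, hb, rfl⟩, rfl⟩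
      exact hbd (f (k b)).1 b (h1.trans hab) hb rfl
    obtain ⟨B, hBA, hB, hlink⟩ := hP _ hA
    refine ⟨fun b => Z b ∧ (f (k b)).1 ∈ B, ?_, fun a ha => ha.1, ?_⟩
    · by_contra hcon
      unfold Unb at hcon
      push Not at hcon
      obtain ⟨a, ha⟩ := hcon
      apply hB
      refine ((countable_Iic a).image fun b => (f (k b)).1).mono ?_
      intro p hp
      obtain ⟨b, hb, rfl⟩ := hBA hp
      refine ⟨b, ?_, rfl⟩
      by_contra h1
      exact ha b (not_le.1 h1) hb hp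
    · intro a b ha hb
      have h3 := hw _ _ (hlink _ ha.2 _ hb.2)
      obtain ⟨z, hz⟩ := hf ⟨w (f (k a)).1 (f (k b)).1, hQw _ (f (k a)).2 _ (f (k b)).2⟩
      refine ⟨z, ?_, ?_⟩
      · simp only [hz]
        exact h3.1
      · simp only [hz]
        exact h3.2
  have hdns : ∀ i, IsDenseIn (fun x y => f x ≤ f y) (fun x => f x ∈ g i) := by
    intro i x
    obtain ⟨r, hr, hrx⟩ := hg.2 i (f x)
    obtain ⟨y, hy⟩ := hf r
    exact ⟨y, by simp only [hy]; exact hr, by simp only [hy]; exact hrx⟩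
  obtain ⟨F, ⟨⟨x0, hx0⟩, hup, hdir⟩, hmeet⟩ := h (fun x y => f x ≤ f y) (fun i x => f x ∈ g i)
    ⟨fun x => le_rfl, fun x y z h1 h2 => h1.trans h2⟩ hkn hdns
  refine ⟨{p | ∃ x, F x ∧ (f x).1 ≤ p}, ⟨_, x0, hx0, le_rfl⟩, ?_, ?_, ?_⟩
  · rintro p ⟨x, hx, hxp⟩ q hpq
    exact ⟨x, hx, hxp.trans hpq⟩
  · rintro p ⟨x, hx, hxp⟩ q ⟨y, hy, hyq⟩
    obtain ⟨z, hz, h1, h2⟩ := hdir x y hx hy
    exact ⟨f z, ⟨z, hz, le_rfl⟩, le_trans (show (f z).1 ≤ (f x).1 from h1) hxp,
      le_trans (show (f z).1 ≤ (f y).1 from h2) hyq⟩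
  · intro D hD
    obtain ⟨i, hi⟩ := hg.1 D hD
    obtain ⟨x, hx, hxD⟩ := hmeet i
    rw [hi] at hxD
    exact ⟨f x, ⟨x, hx, le_rfl⟩, hxD⟩

/-- a copy of `ω₁` without its order -/
def OmCopy : Type := Om1

theorem martinKFor_of_martinK (h : MartinK) : MartinKFor Om1 := by
  intro R D hR hk hD
  let _ : Preorder OmCopy := { le := R, le_refl := hR.1, le_trans := hR.2 }
  have : Nonempty OmCopy := (inferInstance : Nonempty Om1)
  have hK : HasPropertyK OmCopy := by
    intro A hunc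
    obtain ⟨e⟩ : Nonempty (Om1 ↪ A) := by
      rw [← Cardinal.le_def, Cardinal.mk_ord_toType]
      rw [← Cardinal.succ_aleph0, Order.succ_le_iff]
      rw [← not_le, Cardinal.le_aleph0_iff_set_countable]
      exact hunc
    obtain ⟨Z', hZ', _, hl⟩ := hk (fun _ => True) (fun a => (e a).1)
      (fun a => (exists_gt_om1 a).imp fun b hb => ⟨hb, trivial⟩)
    refine ⟨(fun a => (e a).1) '' {a | Z' a}, ?_, ?_, ?_⟩
    · rintro _ ⟨a, _, rfl⟩
      exact (e a).2
    · intro hc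
      exact unb_not_countable hZ' (Set.countable_of_injective_of_countable_image
        (fun a _ b _ hab => e.injective (Subtype.ext hab)) hc)
    · rintro _ ⟨a, ha, rfl⟩ _ ⟨b, hb, rfl⟩
      exact hl a b ha hb
  obtain ⟨G, hG1, hG2, hG3, hG4⟩ := h OmCopy hK (Set.range fun i : Om1 => {x | D i x})
    (Cardinal.mk_range_le.trans_eq (Cardinal.mk_ord_toType _)) (by
      rintro _ ⟨i, rfl⟩ p
      obtain ⟨y, hy, hyp⟩ := hD i p
      exact ⟨y, hy, hyp⟩)
  refine ⟨fun x => x ∈ G, ⟨hG1, fun x y hx hxy => hG2 x hx y hxy, ?_⟩, ?_⟩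
  · intro x y hx hy
    obtain ⟨r, hr, h1, h2⟩ := hG3 x hx y hy
    exact ⟨r, hr, h1, h2⟩
  · intro i
    obtain ⟨x, hx1, hx2⟩ := hG4 _ ⟨i, rfl⟩
    exact ⟨x, hx1, hx2⟩

/-- `MartinKFor Om1` is Martin's axiom for `ℵ₁` dense sets and preorders with property (K). -/
theorem martinKFor_iff : MartinKFor Om1 ↔ MartinK :=
  ⟨martinK_of_martinKFor, martinKFor_of_martinK⟩

/-! ### The continuum hypothesis fails -/

/-- finite binary sequences -/
structure Coh where
  l : List Bool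

instance : Preorder Coh where
  le p q := q.l <+: p.l
  le_refl p := List.prefix_refl _
  le_trans p q r h1 h2 := h2.trans h1

instance : Countable Coh :=
  Function.Injective.countable (f := Coh.l) fun p q h => by
    cases p
    cases q
    simpa using h

theorem prefix_get {s r : List Bool} (h : s <+: r) {n : ℕ} {b : Bool} (hb : s[n]? = some b) :
    r[n]? = some b := by
  obtain ⟨t, rfl⟩ := h
  have hn : n < s.length := by
    by_contra hn
    rw [List.getElem?_eq_none (not_lt.1 hn)] at hb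
    cases hb
  rw [List.getElem?_append_left hn]
  exact hb

theorem not_CH_of_martinK (h : MartinK) : (ℵ₁ : Cardinal.{0}) < 𝔠 := by
  by_contra hcon
  rw [not_lt] at hcon
  have : Nonempty Coh := ⟨⟨[]⟩⟩
  let D : (ℕ → Bool) → Set Coh := fun x => {s | ∃ n b, s.l[n]? = some b ∧ b ≠ x n}
  let E : ℕ → Set Coh := fun n => {s | ∃ b, s.l[n]? = some b}
  obtain ⟨G, _, _, hdir, hmeet⟩ := h Coh (fun A hA => absurd (Set.to_countable A) hA)
    (Set.range D ∪ Set.range E) (by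
      refine (mk_union_le _ _).trans ?_
      refine (add_le_add mk_range_le mk_range_le).trans ?_
      have h1 : #(ℕ → Bool) = 𝔠 := by simp
      rw [h1, mk_nat]
      exact (add_le_add hcon (aleph0_le_aleph 1)).trans_eq
        (add_eq_self (aleph0_le_aleph 1))) (by
      have hlen : ∀ (p : Coh) (b : Bool), (p.l ++ [b])[p.l.length]? = some b := by
        intro p b
        simp
      rintro _ (⟨x, rfl⟩ | ⟨n, rfl⟩) p
      · refine ⟨⟨p.l ++ [!(x p.l.length)]⟩, ⟨p.l.length, _, hlen p _, ?_⟩,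
          List.prefix_append _ _⟩
        cases x p.l.length <;> simp
      · refine ⟨⟨p.l ++ List.replicate (n + 1) true⟩, ?_, List.prefix_append _ _⟩
        show ∃ b, (p.l ++ List.replicate (n + 1) true)[n]? = some b
        have h2 : n < (p.l ++ List.replicate (n + 1) true).length := by
          simp
          omega
        exact ⟨_, List.getElem?_eq_getElem h2⟩)
  have h1 : ∀ n : ℕ, ∃ b : Bool, ∃ s ∈ G, s.l[n]? = some b := by
    intro n
    obtain ⟨s, hs, b, hb⟩ := hmeet (E n) (Or.inr ⟨n, rfl⟩)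
    exact ⟨b, s, hs, hb⟩
  choose y s hs hsy using h1
  obtain ⟨r, hr, n, b, hb, hne⟩ := hmeet (D y) (Or.inl ⟨y, rfl⟩)
  obtain ⟨u, _, hu1, hu2⟩ := hdir _ (hs n) _ hr
  have h2 := prefix_get hu1 (hsy n)
  have h3 := prefix_get hu2 hb
  rw [h2] at h3
  exact hne (Option.some.inj h3).symm

end Run7.h144
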