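import Pool.Agent.Run7.h144.Tree

/-!
# The statement of the problem, and its failure in the presence of a rich Suslin tree
-/

set_option autoImplicit false

namespace Run7.h144

open Set Topology Pool.Agent.W684.FM

/-- Countable extent: every closed discrete subset is countable. -/
def CountableExtent (X : Type) [TopologicalSpace X] : Prop :=
  ∀ D : Set X, IsClosed D → DiscreteTopology D → D.Countable

/-- The statement of the problem: for every Tychonoff space `X` of countable extent, every compact
subspace of `C_p(X)` is Fréchet–Urysohn. (The set `K` of continuous functions carries the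
subspace topology of `ℝ^X`, that is, the topology of pointwise convergence.) -/
def FUStatement : Prop :=
  ∀ (X : Type) [TopologicalSpace X] [T35Space X], CountableExtent X →
    ∀ K : Set (X → ℝ), (∀ f ∈ K, Continuous f) → IsCompact K → FrechetUrysohnSpace K

theorem countableExtent_of_lindelof (X : Type) [TopologicalSpace X] [LindelofSpace X] :
    CountableExtent X := by
  intro D hD hdisc
  have h1 : LindelofSpace D := hD.isClosedEmbedding_subtypeVal.isLindelof_preimage isLindelof_univ
    |> fun h => ⟨by simpa using h⟩
  exact countable_of_Lindelof_of_discrete (X := D) |>.to_set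

/-- A rich Suslin tree gives a Lindelöf space `X` and a compact `K ⊆ C_p(X)` of uncountable
tightness. -/
theorem exists_of_richSuslin (h : RichSuslin) :
    ∃ (X : Type) (_ : TopologicalSpace X), T35Space X ∧ LindelofSpace X ∧
      ∃ K : Set (X → ℝ), (∀ f ∈ K, Continuous f) ∧ IsCompact K ∧
        ∃ G ⊆ K, ∃ f ∈ K, f ∈ closure G ∧ ∀ C ⊆ G, C.Countable → f ∉ closure C := by
  obtain ⟨t, hbdd, hrich, hcov, hsus⟩ := h
  refine ⟨YY t, inferInstance, inferInstance, lindelof_YY hbdd hrich hsus, KK t,
    fun f hf => KK_cont hf, isCompact_KK, range pe, subset_closure, 0, ?_, ?_, ?_⟩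
  · exact mem_closure_of_tendsto (tendsto_pe hbdd) (Filter.Eventually.of_forall fun α => ⟨α, rfl⟩)
  · exact mem_closure_of_tendsto (tendsto_pe hbdd) (Filter.Eventually.of_forall fun α => ⟨α, rfl⟩)
  · intro C hC hc
    exact zero_notMem hcov hC hc

/-- A compact set of functions of uncountable tightness is not Fréchet–Urysohn. -/
theorem not_frechetUrysohn {X : Type} {K : Set (X → ℝ)}
    (h : ∃ G ⊆ K, ∃ f ∈ K, f ∈ closure G ∧ ∀ C ⊆ G, C.Countable → f ∉ closure C) :
    ¬ FrechetUrysohnSpace K := by
  intro hFU
  obtain ⟨G, hGK, f, hfK, hfG, hC⟩ := h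
  let G' : Set K := {x | x.1 ∈ G}
  have h1 : (⟨f, hfK⟩ : K) ∈ closure G' := by
    rw [closure_subtype]
    have : (Subtype.val '' G' : Set (X → ℝ)) = G := by
      ext g
      constructor
      · rintro ⟨x, hx, rfl⟩
        exact hx
      · exact fun hg => ⟨⟨g, hGK hg⟩, hg, rfl⟩
    rw [this]
    exact hfG
  obtain ⟨x, hx, hlim⟩ := mem_closure_iff_seq_limit.1 h1
  apply hC (range fun n => (x n).1)
  · rintro _ ⟨n, rfl⟩
    exact hx n
  · exact countable_range _
  · have h2 : Filter.Tendsto (fun n => (x n).1) Filter.atTop (𝓝 f) :=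
      (continuous_subtype_val.tendsto _).comp hlim
    exact mem_closure_of_tendsto h2 (Filter.Eventually.of_forall fun n => ⟨n, rfl⟩)

end Run7.h144
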