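import Pool.Agent.Run7.h144.Space

/-!
# Compact sets of continuous functions of uncountable tightness are not sequential
-/

set_option autoImplicit false

namespace Run7.h144

open Set Topology Pool.Agent.W684.FM

/-- A compact set of functions with a point in the closure of a subset `G`, but not in the closure
of any countable subset of `G`, is not sequential. -/
theorem not_sequential {X : Type} {K : Set (X → ℝ)}
    (h : ∃ G ⊆ K, ∃ f ∈ K, f ∈ closure G ∧ ∀ C ⊆ G, C.Countable → f ∉ closure C) :
    ¬ SequentialSpace K := by
  intro hS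
  obtain ⟨G, hGK, f, hfK, hfG, hC⟩ := h
  let U : Set K := {x | ∃ C ⊆ G, C.Countable ∧ x.1 ∈ closure C}
  have hseq : IsSeqClosed U := by
    intro x p hx hp
    choose C hCG hCc hxC using hx
    refine ⟨⋃ n, C n, iUnion_subset hCG, countable_iUnion hCc, ?_⟩
    have h2 : Filter.Tendsto (fun n => (x n).1) Filter.atTop (𝓝 p.1) :=
      (continuous_subtype_val.tendsto _).comp hp
    exact isClosed_closure.mem_of_tendsto h2 (Filter.Eventually.of_forall fun n =>
      closure_mono (subset_iUnion C n) (hxC n))
  have hcl : IsClosed U := hseq.isClosed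
  let G' : Set K := {x | x.1 ∈ G}
  have h1 : (⟨f, hfK⟩ : K) ∈ closure G' := by
    rw [closure_subtype]
    have : (Subtype.val '' G' : Set (X → ℝ)) = G := by
      ext g
      constructor
      · rintro ⟨x, hx, rfl⟩
        exact hx
      · exact fun hg => ⟨⟨g, hGK hg⟩, hg, rfl⟩
    rw [this]
    exact hfG
  have h2 : G' ⊆ U := fun x hx =>
    ⟨{x.1}, singleton_subset_iff.2 hx, countable_singleton _, subset_closure rfl⟩
  obtain ⟨C, hCG, hCc, hfC⟩ := closure_minimal h2 hcl h1
  exact hC C hCG hCc hfC

end Run7.h144
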