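import Pool.Agent.Run7.h144.Comb
import Pool.Agent.W684.FM.Val

/-!
# The two special coordinates of the iteration: the coherent sequence and the tree
-/

set_option autoImplicit false

namespace Run7.h144

open Classical Set Pool.Agent.W684.FM

theorem countable_finsets {α : Type} {C : Set α} (hC : C.Countable) :
    {s : Finset α | ∀ a ∈ s, a ∈ C}.Countable := by
  have := hC.to_subtype
  refine (countable_range fun t : Finset C => t.map (Function.Embedding.subtype _)).mono ?_
  intro s hs
  refine ⟨s.subtype (fun a => a ∈ C), ?_⟩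
  ext a
  simp only [Finset.mem_map, Finset.mem_subtype, Function.Embedding.coe_subtype, Subtype.exists,
    exists_and_right, exists_eq_right]
  exact ⟨fun ⟨_, h⟩ => h, fun h => ⟨hs a h, h⟩⟩

/-- canonical codes of assertions about the levels of the nodes in `N` -/
def canon (N : Finset Om1) : Set Om1 :=
  {x | (encA x).1 ∈ N.image lev ∧ (encA x).2.1 ∈ N.image lev ∧
    (encA x).2.2 ∈ Cds Gam (encA x).1}

theorem countable_canon (N : Finset Om1) : (canon N).Countable := by
  have h1 : (⋃ β ∈ ((N.image lev : Finset Om1) : Set Om1),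
      ({β} : Set Om1) ×ˢ (((N.image lev : Finset Om1) : Set Om1) ×ˢ Cds Gam β)).Countable := by
    apply Set.Countable.biUnion (Finset.countable_toSet _)
    intro β _
    exact (countable_singleton β).prod ((Finset.countable_toSet _).prod (countable_Cds β))
  refine (h1.preimage encA.injective).mono ?_
  rintro x ⟨h2, h3, h4⟩
  rw [mem_preimage, mem_iUnion₂]
  exact ⟨(encA x).1, h2, rfl, h3, h4⟩

variable {W : Type} [LinearOrder W] (o : W)

/-- name of the first coordinate -/
def nm0 (F : Finset Om1) : Set (Cond Om1 W) := {s | s = ∅ ∧ ∃ w, Sys w ∧ ∀ x ∈ F, Sat w (encA x)}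

omit [LinearOrder W] in
theorem exists_c0 : ∃ c : Code Om1 W, c.st = o ∧ c.nm = nm0 :=
  Code.exists_code o nm0 fun F => (countable_singleton (∅ : Cond Om1 W)).mono fun s hs => hs.1

/-- the first coordinate -/
noncomputable def c0 : Code Om1 W := (exists_c0 o).choose

omit [LinearOrder W] in
theorem c0_st : (c0 o).st = o := (exists_c0 o).choose_spec.1

omit [LinearOrder W] in
theorem c0_nm : (c0 o).nm = nm0 := (exists_c0 o).choose_spec.2

/-- name of the coordinate of the tree -/
def nmt (N : Finset Om1) : Set (Cond Om1 W) :=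
  {s | (∀ a ∈ s, a.1 = c0 o ∧ a.2 ∈ canon N) ∧ ∀ ν ∈ N, ∀ ν' ∈ N, ν ≠ ν' → lev ν ≤ lev ν' →
    ∃ x, (c0 o, x) ∈ s ∧ (encA x).1 = lev ν ∧ (encA x).2.1 = lev ν' ∧
      ∀ α < lev ν, hN ν α = hN ν' α * ev (encA x).2.2.1 (encA x).2.2.2 α}

omit [LinearOrder W] in
theorem exists_ct : ∃ c : Code Om1 W, c.st = o ∧ c.nm = nmt o := by
  apply Code.exists_code o (nmt o)
  intro N
  have h1 : (({c0 o} : Set (Code Om1 W)) ×ˢ canon N).Countable :=
    (countable_singleton _).prod (countable_canon N)
  refine (countable_finsets h1).mono ?_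
  intro s hs a ha
  exact ⟨(hs.1 a ha).1, (hs.1 a ha).2⟩

/-- the coordinate of the tree -/
noncomputable def ct : Code Om1 W := (exists_ct o).choose

omit [LinearOrder W] in
theorem ct_st : (ct o).st = o := (exists_ct o).choose_spec.1

omit [LinearOrder W] in
theorem ct_nm : (ct o).nm = nmt o := (exists_ct o).choose_spec.2

theorem sys_one : Sys fun _ _ => 1 := fun _ => IsPC.const 1

omit [LinearOrder W] in
theorem c0_ne_ct : c0 o ≠ ct o := by
  intro h
  let ν : Om1 := Classical.arbitrary Om1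
  have h1 := asr_spec sys_one (lev ν) (lev ν)
  have h2 : ({(c0 o, asr (fun _ _ => 1) (lev ν) (lev ν))} : Cond Om1 W) ∈ (ct o).nm {ν} := by
    rw [ct_nm]
    refine ⟨?_, ?_⟩
    · intro a ha
      rw [Finset.mem_singleton] at ha
      subst ha
      refine ⟨rfl, ?_, ?_, ?_⟩
      · rw [h1.1]
        simp
      · rw [h1.2.1]
        simp
      · simp only
        rw [h1.1]
        exact h1.2.2.1
    · intro ν1 h3 ν2 h4 hne
      rw [Finset.mem_singleton] at h3 h4
      exact absurd (h3.trans h4.symm) hne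
  rw [← h, c0_nm] at h2
  exact absurd h2.1 (Finset.singleton_ne_empty _)

omit [LinearOrder W] in
/-- a valid condition is realized -/
theorem exists_real {S : Set (Code Om1 W)} {p : Cond Om1 W} (hp : Valid S p) :
    ∃ w b, Sys w ∧ IsPC b ∧ (∀ x ∈ fib p (c0 o), Sat w (encA x)) ∧
      Chain w b (fib p (ct o)) := by
  obtain ⟨w, hw, hF⟩ : ∃ w, Sys w ∧ ∀ x ∈ fib p (c0 o), Sat w (encA x) := by
    rcases (fib p (c0 o)).eq_empty_or_nonempty with h | ⟨x, hx⟩
    · exact ⟨_, sys_one, by rw [h]; simp⟩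
    · obtain ⟨_, s, hs, _⟩ := hp _ (mem_fib.1 hx)
      simp only at hs
      rw [c0_nm] at hs
      exact hs.2
  rcases (fib p (ct o)).eq_empty_or_nonempty with h | hne
  · refine ⟨w, fun _ => 1, hw, IsPC.const 1, hF, ?_⟩
    rw [h]
    intro ν hν
    simp at hν
  · obtain ⟨ν₀, hν₀, hmax⟩ := Finset.exists_max_image _ lev hne
    refine ⟨w, fun α => hN ν₀ α * (w (lev ν₀) α)⁻¹, hw, (hn_pc _ _).mul (hw _).inv, hF, ?_⟩
    intro ν hν α hα
    by_cases he : ν = ν₀
    · rw [he]
    · obtain ⟨_, s, hs, hsp⟩ := hp _ (mem_fib.1 hν)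
      simp only at hs
      rw [ct_nm] at hs
      obtain ⟨x, hx, h1, h2, h3⟩ := hs.2 ν hν ν₀ hν₀ he (hmax ν hν)
      have h4 := hF x (mem_fib.2 (hsp hx)) α (by rw [h1]; exact hα.le)
        (by rw [h2]; exact hα.le.trans (hmax ν hν))
      rw [h3 α hα, ← h4, h1, h2]
      group

omit [LinearOrder W] in
theorem valid_base {S : Set (Code Om1 W)} (h0 : c0 o ∈ S) (ht : ct o ∈ S) {r : Cond Om1 W}
    (hr : ∀ a ∈ r, a.1 = c0 o ∨ a.1 = ct o) {w : Om1 → Om1 → Gam} {b : Om1 → Gam} (hw : Sys w)
    (hF : ∀ x ∈ fib r (c0 o), Sat w (encA x)) (hN' : Chain w b (fib r (ct o)))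
    (hs : ∀ ν ∈ fib r (ct o), ∀ ν' ∈ fib r (ct o), (c0 o, asr w (lev ν) (lev ν')) ∈ r) :
    Valid S r := by
  intro a ha
  rcases hr a ha with h | h
  · refine ⟨by rw [h]; exact h0, ∅, ?_, Finset.empty_subset _⟩
    rw [h, c0_nm]
    exact ⟨rfl, w, hw, hF⟩
  · refine ⟨by rw [h]; exact ht, ((fib r (ct o)) ×ˢ (fib r (ct o))).image
      (fun e => (c0 o, asr w (lev e.1) (lev e.2))), ?_, ?_⟩
    · rw [h, ct_nm]
      refine ⟨?_, ?_⟩
      · intro d hd
        obtain ⟨⟨ν, ν'⟩, he, rfl⟩ := Finset.mem_image.1 hd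
        rw [Finset.mem_product] at he
        have h1 := asr_spec hw (lev ν) (lev ν')
        refine ⟨rfl, ?_, ?_, ?_⟩
        · rw [h1.1]
          exact Finset.mem_image_of_mem _ he.1
        · rw [h1.2.1]
          exact Finset.mem_image_of_mem _ he.2
        · simp only
          rw [h1.1]
          exact h1.2.2.1
      · intro ν hν ν' hν' hne hle
        have h1 := asr_spec hw (lev ν) (lev ν')
        refine ⟨asr w (lev ν) (lev ν'), ?_, h1.1, h1.2.1, ?_⟩
        · exact Finset.mem_image_of_mem (fun e : Om1 × Om1 => (c0 o, asr w (lev e.1) (lev e.2)))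
            (Finset.mem_product.2 ⟨hν, hν'⟩ : (ν, ν') ∈ _)
        · intro α hα
          have h2 := h1.2.2.2 α (by rw [h1.1]; exact hα.le)
            (by rw [h1.2.1]; exact hα.le.trans hle)
          have h3 := hN' ν hν α hα
          have h4 := hN' ν' hν' α (hα.trans_le hle)
          rw [← h2, h1.1, h1.2.1, ← mul_assoc, h4, ← h3]
          group
    · intro d hd
      obtain ⟨⟨ν, ν'⟩, he, rfl⟩ := Finset.mem_image.1 hd
      rw [Finset.mem_product] at he
      exact hs ν he.1 ν' he.2

omit [LinearOrder W] in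
/-- the chain condition for the two special coordinates together -/
theorem CCCs_base : CCCs ({c0 o, ct o} : Set (Code Om1 W)) := by
  intro A hA hanti
  by_contra hunc
  have hre : ∀ p : Cond Om1 W, ∃ w b, p ∈ A → Sys w ∧ IsPC b ∧
      (∀ x ∈ fib p (c0 o), Sat w (encA x)) ∧ Chain w b (fib p (ct o)) := by
    intro p
    by_cases hp : p ∈ A
    · obtain ⟨w, b, h⟩ := exists_real o (hA p hp)
      exact ⟨w, b, fun _ => h⟩
    · exact ⟨fun _ _ => 1, fun _ => 1, fun h => absurd h hp⟩
  choose w b hwb using hre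
  obtain ⟨p, hp, q, hq, hpq, w', b', hw', _, hF', hN'⟩ := exists_amalg A hunc
    (fun p => fib p (c0 o)) (fun p => fib p (ct o)) w b (fun p hp => (hwb p hp).1)
    (fun p hp => (hwb p hp).2.1) (fun p hp => (hwb p hp).2.2.1) (fun p hp => (hwb p hp).2.2.2)
  let N : Finset Om1 := fib p (ct o) ∪ fib q (ct o)
  let s : Cond Om1 W := (N ×ˢ N).image (fun e => (c0 o, asr w' (lev e.1) (lev e.2)))
  let r : Cond Om1 W := p ∪ q ∪ s
  have hfc : ∀ x ∈ fib r (c0 o), Sat w' (encA x) := by
    intro x hx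
    rw [mem_fib, Finset.mem_union, Finset.mem_union] at hx
    rcases hx with (h | h) | h
    · exact hF' x (Finset.mem_union_left _ (mem_fib.2 h))
    · exact hF' x (Finset.mem_union_right _ (mem_fib.2 h))
    · obtain ⟨e, _, he⟩ := Finset.mem_image.1 h
      have : asr w' (lev e.1) (lev e.2) = x := (Prod.mk.inj he).2
      rw [← this]
      exact (asr_spec hw' _ _).2.2.2
  have hft : fib r (ct o) = N := by
    ext x
    rw [mem_fib, Finset.mem_union, Finset.mem_union, Finset.mem_union, mem_fib, mem_fib]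
    constructor
    · rintro (h | h)
      · exact h
      · obtain ⟨e, _, he⟩ := Finset.mem_image.1 h
        exact absurd (Prod.mk.inj he).1 (c0_ne_ct o)
    · exact fun h => Or.inl h
  apply hanti p hp q hq hpq
  refine ⟨r, ?_, Finset.subset_union_left.trans Finset.subset_union_left,
    Finset.subset_union_right.trans Finset.subset_union_left⟩
  refine valid_base o (Or.inl rfl) (Or.inr rfl) ?_ hw' hfc (b := b') ?_ ?_
  · intro a ha
    rcases Finset.mem_union.1 ha with h | h
    · rcases Finset.mem_union.1 h with h | h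
      · exact (hA p hp a h).1
      · exact (hA q hq a h).1
    · obtain ⟨e, _, rfl⟩ := Finset.mem_image.1 h
      exact Or.inl rfl
  · rw [hft]
    exact hN'
  · rw [hft]
    intro ν hν ν' hν'
    apply Finset.mem_union_right
    exact Finset.mem_image_of_mem (fun e : Om1 × Om1 => (c0 o, asr w' (lev e.1) (lev e.2)))
      (Finset.mem_product.2 ⟨hν, hν'⟩ : (ν, ν') ∈ _)

end Run7.h144
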