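import Pool.Agent.Run7.h144.PC

/-!
# Finite systems of assertions about a coherent sequence, and nodes of the tree
-/

set_option autoImplicit false

namespace Run7.h144

open Classical Set Pool.Agent.W684.FM Cardinal

noncomputable def pd : Paradox Gam := exists_paradox.some

/-- assertions: two levels and a code of a piecewise constant function -/
abbrev Asrt : Type := Om1 × Om1 × (List (Om1 × Gam) × Gam)

theorem mk_om1_prod (Y : Type) [Countable Y] [Nonempty Y] : #(Om1 × Y) = ℵ₁ := by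
  have h1 : #Y ≤ ℵ₀ := mk_le_aleph0
  have h2 : #Y ≠ 0 := mk_ne_zero Y
  rw [mk_prod, lift_id, lift_id, mk_ord_toType]
  exact mul_eq_left (aleph0_le_aleph _) (h1.trans (aleph0_le_aleph _)) h2

theorem exists_encA : Nonempty (Om1 ≃ Asrt) := by
  rw [← Cardinal.eq]
  have h1 : #(List (Om1 × Gam)) = ℵ₁ := by
    rw [mk_list_eq_mk, mk_om1_prod]
  have h2 : #(List (Om1 × Gam) × Gam) = ℵ₁ := by
    rw [mk_prod, lift_id, lift_id, h1]
    exact mul_eq_left (aleph0_le_aleph _) (mk_le_aleph0.trans (aleph0_le_aleph _)) (mk_ne_zero _)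
  have h3 : #(Om1 × (List (Om1 × Gam) × Gam)) = ℵ₁ := by
    rw [mk_prod, lift_id, lift_id, h2, mk_ord_toType, mul_eq_self (aleph0_le_aleph _)]
  rw [mk_prod, lift_id, lift_id, h3, mk_ord_toType, mul_eq_self (aleph0_le_aleph _)]

theorem exists_encN : Nonempty (Om1 ≃ Om1 × ℕ) := by
  rw [← Cardinal.eq, mk_om1_prod, mk_ord_toType]

noncomputable def encA : Om1 ≃ Asrt := exists_encA.some

noncomputable def encN : Om1 ≃ Om1 × ℕ := exists_encN.some

theorem exists_hn (γ : Om1) : ∃ h : ℕ → Om1 → Gam, (∀ n, IsPC (h n)) ∧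
    ∀ k : Om1 → Gam, IsPC k → ∃ n, ∀ α ≤ γ, h n α = k α := by
  have h1 := (countable_Cds (Γ := Gam) γ).to_subtype
  have h2 : Nonempty (Cds Gam γ) := ⟨⟨([], 1), by simp [Cds]⟩⟩
  obtain ⟨e, he⟩ := exists_surjective_nat (Cds Gam γ)
  refine ⟨fun n => ev (e n).1.1 (e n).1.2, fun n => ⟨_, _, rfl⟩, fun k hk => ?_⟩
  obtain ⟨c, hc, h3⟩ := hk.exists_code γ
  obtain ⟨n, hn⟩ := he ⟨c, hc⟩
  refine ⟨n, fun α hα => ?_⟩
  rw [h3 α hα]
  simp only [hn]

/-- enumeration of the piecewise constant functions for the level `γ` -/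
noncomputable def hn (γ : Om1) : ℕ → Om1 → Gam := (exists_hn γ).choose

theorem hn_pc (γ : Om1) (n : ℕ) : IsPC (hn γ n) := (exists_hn γ).choose_spec.1 n

theorem hn_surj (γ : Om1) {k : Om1 → Gam} (hk : IsPC k) : ∃ n, ∀ α ≤ γ, hn γ n α = k α :=
  (exists_hn γ).choose_spec.2 k hk

/-- the assertion `a` holds for the system `w` -/
def Sat (w : Om1 → Om1 → Gam) (a : Asrt) : Prop :=
  ∀ α, α ≤ a.1 → α ≤ a.2.1 → (w a.2.1 α)⁻¹ * w a.1 α = ev a.2.2.1 a.2.2.2 α

/-- systems of piecewise constant functions -/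
def Sys (w : Om1 → Om1 → Gam) : Prop := ∀ γ, IsPC (w γ)

/-- level of a node -/
noncomputable def lev (ν : Om1) : Om1 := (encN ν).1

/-- the function of a node -/
noncomputable def hN (ν : Om1) : Om1 → Gam := hn (encN ν).1 (encN ν).2

/-- the nodes in `N` are initial segments of `b` with respect to the system `w` -/
def Chain (w : Om1 → Om1 → Gam) (b : Om1 → Gam) (N : Finset Om1) : Prop :=
  ∀ ν ∈ N, ∀ α < lev ν, hN ν α * (w (lev ν) α)⁻¹ = b α

/-- amalgamation of two elements of an uncountable family -/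
theorem exists_amalg {ι : Type} (I : Set ι) (hI : ¬ I.Countable) (F N : ι → Finset Om1)
    (w : ι → Om1 → Om1 → Gam) (b : ι → Om1 → Gam) (hw : ∀ i ∈ I, Sys (w i))
    (hb : ∀ i ∈ I, IsPC (b i)) (hF : ∀ i ∈ I, ∀ x ∈ F i, Sat (w i) (encA x))
    (hN : ∀ i ∈ I, Chain (w i) (b i) (N i)) :
    ∃ i ∈ I, ∃ j ∈ I, i ≠ j ∧ ∃ w' b', Sys w' ∧ IsPC b' ∧
      (∀ x ∈ F i ∪ F j, Sat w' (encA x)) ∧ Chain w' b' (N i ∪ N j) := by
  let lv : ι → Finset Om1 := fun i => (F i).image (fun x => (encA x).1) ∪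
    (F i).image (fun x => (encA x).2.1) ∪ (N i).image lev
  have hlv1 : ∀ i, ∀ x ∈ F i, (encA x).1 ∈ lv i := fun i x hx =>
    Finset.mem_union_left _ (Finset.mem_union_left _ (Finset.mem_image_of_mem _ hx))
  have hlv2 : ∀ i, ∀ x ∈ F i, (encA x).2.1 ∈ lv i := fun i x hx =>
    Finset.mem_union_left _ (Finset.mem_union_right _ (Finset.mem_image_of_mem
      (fun x => (encA x).2.1) hx))
  have hlv3 : ∀ i, ∀ x ∈ N i, lev x ∈ lv i := fun i x hx =>
    Finset.mem_union_right _ (Finset.mem_image_of_mem _ hx)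
  obtain ⟨J, R, hJI, hJ, hR, hd⟩ := Pool.Agent.Helper126.delta_system lv I hI
  obtain ⟨δ, hδ⟩ := exists_bound_set R.countable_toSet
  have hcd : ∀ i, ∀ r : Om1, ∃ c : Cds Gam δ, i ∈ I → ∀ α ≤ δ, w i r α = ev c.1.1 c.1.2 α := by
    intro i r
    by_cases hi : i ∈ I
    · obtain ⟨c, hc, h1⟩ := (hw i hi r).exists_code δ
      exact ⟨⟨c, hc⟩, fun _ => h1⟩
    · exact ⟨⟨([], 1), by simp [Cds]⟩, fun h => absurd h hi⟩
  choose cd hcd using hcd
  have hcb : ∀ i, ∃ c : Cds Gam δ, i ∈ I → ∀ α ≤ δ, b i α = ev c.1.1 c.1.2 α := by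
    intro i
    by_cases hi : i ∈ I
    · obtain ⟨c, hc, h1⟩ := (hb i hi).exists_code δ
      exact ⟨⟨c, hc⟩, fun _ => h1⟩
    · exact ⟨⟨([], 1), by simp [Cds]⟩, fun h => absurd h hi⟩
  choose cb hcb using hcb
  have hc1 := (countable_Cds (Γ := Gam) δ).to_subtype
  have hc2 := (countable_Iic δ).to_subtype
  let χ : ι → Finset (Iic δ) × ((R → Cds Gam δ) × Cds Gam δ) := fun i =>
    ((lv i).subtype (fun r => r ∈ Iic δ), (fun r => cd i r.1), cb i)
  obtain ⟨i, hi, j, hj, hij, hχ⟩ : ∃ i ∈ J, ∃ j ∈ J, i ≠ j ∧ χ i = χ j := by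
    by_contra hcon
    push Not at hcon
    apply hJ
    refine Set.countable_of_injective_of_countable_image (f := χ) ?_ (Set.to_countable _)
    intro i hi j hj h
    by_contra hne
    exact hcon i hi j hj hne h
  have hiI := hJI hi
  have hjI := hJI hj
  have h1 : (lv i).subtype (fun r => r ∈ Iic δ) = (lv j).subtype (fun r => r ∈ Iic δ) :=
    congrArg Prod.fst hχ
  have h2 : ∀ r ∈ R, cd i r = cd j r := fun r hr =>
    congrFun (congrArg (fun e => e.2.1) hχ) ⟨r, hr⟩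
  have h3 : cb i = cb j := congrArg (fun e => e.2.2) hχ
  have hRδ : ∀ r ∈ R, r < δ := fun r hr => hδ r hr
  have hwR : ∀ r ∈ R, ∀ α < δ, w i r α = w j r α := by
    intro r hr α hα
    rw [hcd i r hiI α hα.le, hcd j r hjI α hα.le, h2 r hr]
  have hbe : ∀ α < δ, b i α = b j α := by
    intro α hα
    rw [hcb i hiI α hα.le, hcb j hjI α hα.le, h3]
  let z : Om1 → Gam := fun α => if α < δ then 1 else (b i α)⁻¹ * b j α
  have hz : IsPC z := (IsPC.const 1).ite ((hb i hiI).inv.mul (hb j hjI)) δ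
  let w' : Om1 → Om1 → Gam := fun β => if β ∈ lv i then w i β else fun α => z α * w j β α
  have hw1 : ∀ β ∈ lv i, w' β = w i β := fun β hβ => if_pos hβ
  have hw2 : ∀ β ∈ lv j, ∀ α ≤ β, w' β α = z α * w j β α := by
    intro β hβ α hα
    by_cases hβi : β ∈ lv i
    · have hβR : β ∈ R := hd i hi j hj hij β hβi hβ
      have hαδ : α < δ := hα.trans_lt (hRδ β hβR)
      rw [hw1 β hβi, hwR β hβR α hαδ]
      simp [z, hαδ]
    · have : w' β = fun α => z α * w j β α := if_neg hβi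
      rw [this]
  refine ⟨i, hiI, j, hjI, hij, w', b i, ?_, hb i hiI, ?_, ?_⟩
  · intro β
    by_cases hβ : β ∈ lv i
    · rw [hw1 β hβ]
      exact hw i hiI β
    · have : w' β = fun α => z α * w j β α := if_neg hβ
      rw [this]
      exact hz.mul (hw j hjI β)
  · intro x hx
    rcases Finset.mem_union.1 hx with hx | hx
    · intro α hα1 hα2
      rw [hw1 _ (hlv1 i x hx), hw1 _ (hlv2 i x hx)]
      exact hF i hiI x hx α hα1 hα2
    · intro α hα1 hα2
      rw [hw2 _ (hlv1 j x hx) α hα1, hw2 _ (hlv2 j x hx) α hα2, ← hF j hjI x hx α hα1 hα2]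
      group
  · intro ν hν α hα
    rcases Finset.mem_union.1 hν with hν | hν
    · rw [hw1 _ (hlv3 i ν hν)]
      exact hN i hiI ν hν α hα
    · rw [hw2 _ (hlv3 j ν hν) α hα.le, mul_inv_rev, ← mul_assoc, hN j hjI ν hν α hα]
      by_cases hαδ : α < δ
      · simp [z, hαδ, hbe α hαδ]
      · simp only [z, hαδ, if_false]
        group

/-- the assertion about the levels `β` and `γ` which holds for the system `w` -/
noncomputable def asr (w : Om1 → Om1 → Gam) (β γ : Om1) : Om1 :=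
  if h : ∃ x, (encA x).1 = β ∧ (encA x).2.1 = γ ∧ (encA x).2.2 ∈ Cds Gam β ∧ Sat w (encA x)
  then h.choose else β

theorem asr_spec {w : Om1 → Om1 → Gam} (hw : Sys w) (β γ : Om1) :
    (encA (asr w β γ)).1 = β ∧ (encA (asr w β γ)).2.1 = γ ∧
      (encA (asr w β γ)).2.2 ∈ Cds Gam β ∧ Sat w (encA (asr w β γ)) := by
  have h : ∃ x, (encA x).1 = β ∧ (encA x).2.1 = γ ∧ (encA x).2.2 ∈ Cds Gam β ∧
      Sat w (encA x) := by
    obtain ⟨c, hc, h1⟩ := ((hw γ).inv.mul (hw β)).exists_code β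
    refine ⟨encA.symm (β, γ, c), ?_⟩
    simp only [Equiv.apply_symm_apply]
    exact ⟨trivial, trivial, hc, fun α hα _ => h1 α hα⟩
  rw [asr, dif_pos h]
  exact h.choose_spec

end Run7.h144
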