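import Pool.Agent.W684.FM.Defs

/-!
# Rich Suslin trees and Martin's axiom for preorders with property (K)

Each notion is written twice: as a proposition about the universe and as a sentence of the
forcing language (quantifiers over relations and sets become quantifiers over names).
-/

set_option autoImplicit false

namespace Run7.h144

open Cardinal Pool.Agent.Helper669.Forcing Pool.Agent.W684.FM

section Ambient

/-- The node `m` of level `δ` extends the node `n` of level `γ`: the sets named by the two nodes
have the same elements below `γ`. -/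
def Ext (t : Om1 → ℕ → Om1 → Prop) (γ : Om1) (n : ℕ) (δ : Om1) (m : ℕ) : Prop :=
  ∀ α, α < γ → (t γ n α → t δ m α) ∧ (t δ m α → t γ n α)

/-- There is a rich Suslin tree: for each countable ordinal `γ` there is a sequence `t γ n` of
subsets of `γ` (the nodes of level `γ`) such that
* above each node of level `ε < γ` there are, for every `k`, `k` nodes of level `γ` which are
  pairwise disjoint above `ε`;
* each `γ` is covered by two nodes of level `γ`;
* (no uncountable antichain) every set of nodes which contains nodes of arbitrarily large level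
  contains a node and a proper extension of it. -/
def RichSuslin : Prop :=
  ∃ t : Om1 → ℕ → Om1 → Prop,
    (∀ γ n α, t γ n α → α < γ) ∧
    (∀ ε γ : Om1, ε < γ → ∀ (n k : ℕ), ∃ m : Fin k → ℕ, (∀ i, Ext t ε n γ (m i)) ∧
      ∀ i j, i ≠ j → ∀ α, ε ≤ α → ¬ (t γ (m i) α ∧ t γ (m j) α)) ∧
    (∀ γ, ∃ n m, ∀ α, α < γ → ¬ t γ n α → t γ m α) ∧
    ∀ A : Om1 → ℕ → Prop, (∀ a, ∃ b, a < b ∧ ∃ n, A b n) →
      ∃ γ δ, γ < δ ∧ ∃ n m, A γ n ∧ A δ m ∧ Ext t γ n δ m

variable {X : Type}

/-- Property (K), the Knaster property: every family of elements indexed by an uncountable subset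
of `ω₁` has an uncountable subfamily of pairwise compatible elements. -/
def Knaster (R : X → X → Prop) : Prop :=
  ∀ (Z : Om1 → Prop) (f : Om1 → X), Unb Z →
    ∃ Z' : Om1 → Prop, Unb Z' ∧ (∀ a, Z' a → Z a) ∧
      ∀ a b, Z' a → Z' b → Compat R (f a) (f b)

/-- Martin's axiom for preorders with property (K), with underlying set `X`, and families of dense
sets indexed by `X`. -/
def MartinKFor (X : Type) : Prop :=
  ∀ R D : X → X → Prop, IsPre R → Knaster R → (∀ i, IsDenseIn R (D i)) →
    ∃ F : X → Prop, IsFilterIn R F ∧ ∀ i, ∃ x, F x ∧ D i x

end Ambient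

section Names

variable {P : Type} [Preorder P]

/-- Forcing version of `Ext`. -/
def ExtN (t : Om1 → ℕ → Om1 → Set P) (γ : Om1) (n : ℕ) (δ : Om1) (m : ℕ) : Set P :=
  fall fun α => fall fun _ : α < γ =>
    fand (fimp (meets (t γ n α)) (meets (t δ m α))) (fimp (meets (t δ m α)) (meets (t γ n α)))

/-- The sentence `RichSuslin` of the forcing language. -/
def RichSuslinHolds (P : Type) [Preorder P] : Set P :=
  fex fun t : Om1 → ℕ → Om1 → Set P =>
    fand (fall fun γ => fall fun n => fall fun α => fimp (meets (t γ n α)) (fground (α < γ)))
    (fand (fall fun ε : Om1 => fall fun γ : Om1 => fall fun _ : ε < γ =>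
        fall fun n : ℕ => fall fun k : ℕ =>
        fex fun m : Fin k → ℕ => fand (fall fun i => ExtN t ε n γ (m i))
          (fall fun i => fall fun j => fall fun _ : i ≠ j => fall fun α => fall fun _ : ε ≤ α =>
            fnot (fand (meets (t γ (m i) α)) (meets (t γ (m j) α)))))
    (fand (fall fun γ => fex fun n => fex fun m => fall fun α => fall fun _ : α < γ =>
        fimp (fnot (meets (t γ n α))) (meets (t γ m α)))
      (fall fun A : Om1 → ℕ → Set P =>
        fimp (fall fun a => fex fun b => fand (fground (a < b)) (fex fun n => meets (A b n)))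
          (fex fun γ => fex fun δ => fand (fground (γ < δ)) (fex fun n => fex fun m =>
            fand (meets (A γ n)) (fand (meets (A δ m)) (ExtN t γ n δ m)))))))

variable {X : Type}

/-- Forcing version of `Knaster`; functions from `ω₁` to `X` are given by names of their
graphs. -/
def KnasterN (R : X → X → Set P) : Set P :=
  fall fun Z : Om1 → Set P => fall fun f : Om1 → X → Set P =>
    fimp (fand (UnbN Z) (IsFun f)) (fex fun Z' : Om1 → Set P =>
      fand (UnbN Z') (fand (fall fun a => fimp (meets (Z' a)) (meets (Z a)))
        (fall fun a => fall fun b => fimp (fand (meets (Z' a)) (meets (Z' b)))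
          (fex fun x => fex fun y =>
            fand (meets (f a x)) (fand (meets (f b y)) (CompatN R x y))))))

/-- The sentence `MartinKFor X` of the forcing language. -/
def MartinKHolds (P : Type) [Preorder P] (X : Type) : Set P :=
  fall fun R : X → X → Set P => fall fun D : X → X → Set P =>
    fimp (fand (IsPreN R) (fand (KnasterN R) (fall fun i => IsDenseN R (D i))))
      (fex fun F : X → Set P => fand (IsFilterN R F)
        (fall fun i => fex fun x => fand (meets (F x)) (meets (D i x))))

end Names

end Run7.h144
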