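import Pool.Agent.W684.FM.Main

/-!
# A finite support iteration which keeps the chain condition of one extra coordinate

This adapts `Pool.Agent.W684.FM.Stages`. There is a first coordinate `z` and an extra coordinate
`t` whose name only refers to `z`. The sets of coordinates of the stages are chosen maximal such
that the chain condition holds for them together with the extra coordinate `t`, which is itself
not part of the iteration.
-/

set_option autoImplicit false

namespace Run7.h144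

open Classical Pool.Agent.W684.FM

variable {X W : Type}

/-- closed parts of sets of coordinates -/
def Closed (T S : Set (Code X W)) : Prop :=
  T ⊆ S ∧ ∀ c ∈ T, ∀ F, ∀ s ∈ c.nm F, ∀ a ∈ s, a.1 ∈ S → a.1 ∈ T

theorem valid_restr' {T S : Set (Code X W)} (hT : Closed T S) {p : Cond X W} (hp : Valid S p) :
    Valid T (restr T p) := by
  intro a ha
  rw [mem_restr] at ha
  refine ⟨ha.2, ?_⟩
  obtain ⟨h1, s, hs, hsp⟩ := hp a ha.1
  have h2 : fib (restr T p) a.1 = fib p a.1 := fib_congr fun x => by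
    rw [mem_restr]
    exact ⟨fun h => h.1, fun h => ⟨h, ha.2⟩⟩
  refine ⟨s, by rw [h2]; exact hs, fun b hb => ?_⟩
  rw [mem_restr]
  exact ⟨hsp hb, hT.2 _ ha.2 _ s hs b hb (hp b (hsp hb)).1⟩

variable [LinearOrder W]

theorem CCCs_of_parts' {S : Set (Code X W)}
    (hT : ∀ r : Finset (Code X W), (∀ c ∈ r, c ∈ S) →
      ∃ T, Closed T S ∧ (∀ c ∈ r, c ∈ T) ∧ CCCs T) : CCCs S := by
  intro A hA hanti
  by_contra hunc
  obtain ⟨A', r, hA', hunc', hr, hd⟩ := Pool.Agent.Helper126.delta_system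
    (fun p : Cond X W => p.image Prod.fst) A hunc
  obtain ⟨p0, hp0⟩ : A'.Nonempty := by
    rw [Set.nonempty_iff_ne_empty]
    rintro rfl
    exact hunc' Set.countable_empty
  have hrS : ∀ c ∈ r, c ∈ S := by
    intro c hc
    obtain ⟨a, ha, rfl⟩ := Finset.mem_image.1 (hr p0 hp0 hc)
    exact (hA p0 (hA' hp0) a ha).1
  obtain ⟨T, hTS, hrT, hccc⟩ := hT r hrS
  have key : ∀ p ∈ A', ∀ p' ∈ A', p ≠ p' →
      ¬ ∃ q, Valid T q ∧ restr T p ⊆ q ∧ restr T p' ⊆ q := by
    rintro p hp p' hp' hne ⟨q, hq, h1, h2⟩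
    apply hanti p (hA' hp) p' (hA' hp') hne
    refine ⟨q ∪ p ∪ p', ?_, Finset.subset_union_right.trans Finset.subset_union_left,
      Finset.subset_union_right⟩
    refine amalg hTS.1 (hA p (hA' hp)) (hA p' (hA' hp')) hq h1 h2 ?_
    intro a ha b hb hab
    apply hrT
    apply hd p hp p' hp' hne a.1 (Finset.mem_image_of_mem _ ha)
    rw [hab]
    exact Finset.mem_image_of_mem _ hb
  have hinj : Set.InjOn (restr T) A' := by
    intro p hp p' hp' heq
    by_contra hne
    exact key p hp p' hp' hne ⟨restr T p, valid_restr' hTS (hA p (hA' hp)),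
      Finset.Subset.refl _, heq ▸ Finset.Subset.refl _⟩
  have hcount : (restr T '' A').Countable := by
    apply hccc
    · rintro _ ⟨p, hp, rfl⟩
      exact valid_restr' hTS (hA p (hA' hp))
    · rintro _ ⟨p, hp, rfl⟩ _ ⟨p', hp', rfl⟩ hne
      exact key p hp p' hp' (fun h => hne (by rw [h]))
  exact hunc' (Set.countable_of_injective_of_countable_image hinj hcount)

omit [LinearOrder W] in
theorem CCCs.of_closed {T S : Set (Code X W)} (hT : Closed T S) (h : CCCs S) : CCCs T := by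
  intro A hA hanti
  apply h A fun p hp => (hA p hp).mono hT.1
  rintro p hp q hq hne ⟨r, hr, h1, h2⟩
  exact hanti p hp q hq hne ⟨restr T r, valid_restr' hT hr,
    subset_restr h1 fun a ha => (hA p hp a ha).1, subset_restr h2 fun a ha => (hA q hq a ha).1⟩

/-- the first coordinate and the extra coordinate -/
structure BD (X W : Type) [LinearOrder W] where
  o : W
  z : Code X W
  t : Code X W
  bot : ∀ w, o ≤ w
  st0 : z.st = o
  stt : t.st = o
  nm0 : ∀ F, ∀ s ∈ z.nm F, s = ∅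
  nmt : ∀ F, ∀ s ∈ t.nm F, ∀ a ∈ s, a.1 = z
  ne : z ≠ t
  ccc : CCCs {z, t}

variable (B : BD X W)

/-- coordinates which can be used in the iteration -/
def Gd (c : Code X W) : Prop := Proper c ∧ (∀ F, ∀ s ∈ c.nm F, ∀ a ∈ s, a.1 ≠ B.t) ∧ c ≠ B.t

/-- the candidates for the set of the coordinates at stage `α` -/
def Cand' (α : W) (S₀ : Set (Code X W)) : Set (Set (Code X W)) :=
  {M | (∀ c ∈ M, c.st = α ∧ Gd B c) ∧ CCCs ((S₀ ∪ M) ∪ {B.t})}

theorem exists_max' (α : W) (S₀ : Set (Code X W)) (h₀ : ∀ c ∈ S₀, c.st < α ∧ Gd B c)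
    (hz : B.z ∈ S₀) (hc : CCCs (S₀ ∪ {B.t})) :
    ∃ M, Maximal (fun M => M ∈ Cand' B α S₀) M := by
  apply zorn_subset
  intro 𝒞 h𝒞 hchain
  rcases 𝒞.eq_empty_or_nonempty with he | hne
  · subst he
    refine ⟨∅, ⟨by simp, by simpa using hc⟩, by simp⟩
  · refine ⟨⋃₀ 𝒞, ⟨?_, ?_⟩, fun s hs => Set.subset_sUnion_of_mem hs⟩
    · rintro c ⟨M, hM, hcM⟩
      exact (h𝒞 hM).1 c hcM
    · apply CCCs_of_parts'
      intro r hr
      have : ∃ M ∈ 𝒞, ∀ c ∈ r, c ∈ (S₀ ∪ M) ∪ {B.t} := by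
        induction r using Finset.induction_on with
        | empty =>
          obtain ⟨M, hM⟩ := hne
          exact ⟨M, hM, by simp⟩
        | insert c r _ ih =>
          obtain ⟨M, hM, h1⟩ := ih fun d hd => hr d (Finset.mem_insert_of_mem hd)
          rcases hr c (Finset.mem_insert_self _ _) with (h2 | ⟨M', hM', h2⟩) | h2
          · refine ⟨M, hM, fun d hd => ?_⟩
            rcases Finset.mem_insert.1 hd with h3 | h3
            · rw [h3]
              exact Or.inl (Or.inl h2)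
            · exact h1 d h3
          · rcases hchain.total hM hM' with h4 | h4
            · refine ⟨M', hM', fun d hd => ?_⟩
              rcases Finset.mem_insert.1 hd with h3 | h3
              · rw [h3]
                exact Or.inl (Or.inr h2)
              · exact (h1 d h3).imp (fun h => h.imp id fun h => h4 h) id
            · refine ⟨M, hM, fun d hd => ?_⟩
              rcases Finset.mem_insert.1 hd with h3 | h3
              · rw [h3]
                exact Or.inl (Or.inr (h4 h2))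
              · exact h1 d h3
          · refine ⟨M, hM, fun d hd => ?_⟩
            rcases Finset.mem_insert.1 hd with h3 | h3
            · rw [h3]
              exact Or.inr h2
            · exact h1 d h3
      obtain ⟨M, hM, h1⟩ := this
      refine ⟨(S₀ ∪ M) ∪ {B.t}, ⟨Set.union_subset_union_left _
        (Set.union_subset_union_right _ (Set.subset_sUnion_of_mem hM)), ?_⟩, h1, (h𝒞 hM).2⟩
      have hgd : ∀ c ∈ S₀ ∪ M, c.st ≤ α ∧ Gd B c := by
        rintro c (h | h)
        · exact ⟨(h₀ c h).1.le, (h₀ c h).2⟩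
        · exact ⟨((h𝒞 hM).1 c h).1.le, ((h𝒞 hM).1 c h).2⟩
      rintro c (hcS | hcS) F s hs a ha ((h2 | ⟨M', hM', h2⟩) | h2)
      · exact Or.inl (Or.inl h2)
      · exfalso
        have h3 : a.1.st = α := ((h𝒞 hM').1 _ h2).1
        have h4 := (hgd c hcS).2.1 F s hs a ha
        rw [h3] at h4
        exact absurd (hgd c hcS).1 (not_le.2 h4)
      · exact Or.inr h2
      · exact Or.inl (Or.inl h2)
      · rw [Set.mem_singleton_iff] at hcS
        subst hcS
        rw [B.nmt F s hs a ha]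
        exact Or.inl (Or.inl hz)
      · exact Or.inr h2

/-- a maximal set of coordinates at stage `α` above `S₀` -/
noncomputable def maxM' (α : W) (S₀ : Set (Code X W)) : Set (Code X W) :=
  if h : ∃ M, Maximal (fun M => M ∈ Cand' B α S₀) M then h.choose else ∅

theorem maxM'_spec {α : W} {S₀ : Set (Code X W)} (h₀ : ∀ c ∈ S₀, c.st < α ∧ Gd B c)
    (hz : B.z ∈ S₀) (hc : CCCs (S₀ ∪ {B.t})) :
    Maximal (fun M => M ∈ Cand' B α S₀) (maxM' B α S₀) := by
  have h := exists_max' B α S₀ h₀ hz hc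
  rw [maxM', dif_pos h]
  exact h.choose_spec

theorem maxM'_sub {α : W} {S₀ : Set (Code X W)} : ∀ c ∈ maxM' B α S₀, c.st = α ∧ Gd B c := by
  intro c hc
  by_cases h : ∃ M, Maximal (fun M => M ∈ Cand' B α S₀) M
  · rw [maxM', dif_pos h] at hc
    exact h.choose_spec.1.1 c hc
  · rw [maxM', dif_neg h] at hc
    exact absurd hc (Set.notMem_empty c)

variable [WellFoundedLT W]

/-- the coordinates at stage `α` -/
noncomputable def V : W → Set (Code X W) :=
  WellFounded.fix (wellFounded_lt (α := W)) fun α V' =>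
    if α = B.o then {B.z} else maxM' B α (⋃ β : {β // β < α}, V' β.1 β.2)

/-- the coordinates before stage `α` -/
def Slt (α : W) : Set (Code X W) := ⋃ β : {β : W // β < α}, V B β.1

/-- the coordinates up to stage `α` -/
def Sle (α : W) : Set (Code X W) := Slt B α ∪ V B α

/-- all coordinates -/
def Sall : Set (Code X W) := ⋃ β : W, V B β

theorem V_eq {α : W} (h : α ≠ B.o) : (V B α : Set (Code X W)) = maxM' B α (Slt B α) := by
  rw [V, WellFounded.fix_eq, if_neg h]
  rfl

theorem V_bot : (V B B.o : Set (Code X W)) = {B.z} := by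
  rw [V, WellFounded.fix_eq, if_pos rfl]

theorem gd_z : Gd B B.z := by
  refine ⟨?_, ?_, B.ne⟩
  · intro F s hs a ha
    rw [B.nm0 F s hs] at ha
    simp at ha
  · intro F s hs a ha
    rw [B.nm0 F s hs] at ha
    simp at ha

theorem V_sub {α : W} {c : Code X W} (hc : c ∈ V B α) : c.st = α ∧ Gd B c := by
  by_cases h : α = B.o
  · subst h
    rw [V_bot, Set.mem_singleton_iff] at hc
    subst hc
    exact ⟨B.st0, gd_z B⟩
  · rw [V_eq B h] at hc
    exact maxM'_sub B c hc

theorem mem_Slt {α : W} {c : Code X W} : c ∈ Slt B α ↔ c.st < α ∧ c ∈ V B c.st := by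
  rw [Slt, Set.mem_iUnion]
  constructor
  · rintro ⟨⟨β, hβ⟩, h⟩
    have h1 := (V_sub B h).1
    simp only at h1 h
    subst h1
    exact ⟨hβ, h⟩
  · rintro ⟨h1, h2⟩
    exact ⟨⟨c.st, h1⟩, h2⟩

theorem mem_Sle {α : W} {c : Code X W} : c ∈ Sle B α ↔ c.st ≤ α ∧ c ∈ V B c.st := by
  rw [Sle, Set.mem_union, mem_Slt]
  constructor
  · rintro (⟨h1, h2⟩ | h)
    · exact ⟨h1.le, h2⟩
    · have h1 := (V_sub B h).1
      subst h1
      exact ⟨le_rfl, h⟩
  · rintro ⟨h1, h2⟩
    rcases h1.lt_or_eq with h3 | h3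
    · exact Or.inl ⟨h3, h2⟩
    · exact Or.inr (h3 ▸ h2)

theorem mem_Sall {c : Code X W} : c ∈ (Sall B : Set (Code X W)) ↔ c ∈ V B c.st := by
  rw [Sall, Set.mem_iUnion]
  constructor
  · rintro ⟨β, h⟩
    have h1 := (V_sub B h).1
    subst h1
    exact h
  · exact fun h => ⟨_, h⟩

theorem z_mem_V : B.z ∈ V B B.z.st := by
  rw [B.st0, V_bot]
  rfl

theorem z_mem_Sall : B.z ∈ Sall B := (mem_Sall B).2 (z_mem_V B)

theorem z_mem_Sle (α : W) : B.z ∈ Sle B α :=
  (mem_Sle B).2 ⟨by rw [B.st0]; exact B.bot α, z_mem_V B⟩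

theorem z_mem_Slt {α : W} (h : α ≠ B.o) : B.z ∈ Slt B α :=
  (mem_Slt B).2 ⟨by rw [B.st0]; exact lt_of_le_of_ne (B.bot α) (Ne.symm h), z_mem_V B⟩

theorem gd_Sall {c : Code X W} (hc : c ∈ (Sall B : Set (Code X W))) : Gd B c :=
  (V_sub B ((mem_Sall B).1 hc)).2

theorem t_notMem_Sall : B.t ∉ (Sall B : Set (Code X W)) := fun h => (gd_Sall B h).2.2 rfl

theorem Slt_sub_Sall (α : W) : Slt B α ⊆ (Sall B : Set (Code X W)) := fun _ hc =>
  (mem_Sall B).2 ((mem_Slt B).1 hc).2

theorem Sle_sub_Sall (α : W) : Sle B α ⊆ (Sall B : Set (Code X W)) := fun _ hc =>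
  (mem_Sall B).2 ((mem_Sle B).1 hc).2

theorem closed_Slt (α : W) : Closed (Slt B α) (Sall B : Set (Code X W)) :=
  ⟨Slt_sub_Sall B α, fun _ hc F s hs a ha h => (mem_Slt B).2
    ⟨((gd_Sall B (Slt_sub_Sall B α hc)).1 F s hs a ha).trans ((mem_Slt B).1 hc).1,
      (mem_Sall B).1 h⟩⟩

theorem closed_Sle (α : W) : Closed (Sle B α) (Sall B : Set (Code X W)) :=
  ⟨Sle_sub_Sall B α, fun _ hc F s hs a ha h => (mem_Sle B).2
    ⟨((gd_Sall B (Sle_sub_Sall B α hc)).1 F s hs a ha).le.trans ((mem_Sle B).1 hc).1,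
      (mem_Sall B).1 h⟩⟩

/-- adding the extra coordinate -/
theorem closed_add {T S : Set (Code X W)} (hS : S ⊆ Sall B) (h : Closed T S) (hz : B.z ∈ T) :
    Closed (T ∪ {B.t}) (S ∪ {B.t}) := by
  refine ⟨Set.union_subset_union_left _ h.1, ?_⟩
  rintro c (hc | hc) F s hs a ha (h1 | h1)
  · exact Or.inl (h.2 c hc F s hs a ha h1)
  · exact Or.inr h1
  · rw [Set.mem_singleton_iff] at hc
    subst hc
    rw [B.nmt F s hs a ha]
    exact Or.inl hz
  · exact Or.inr h1

/-- dropping the extra coordinate -/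
theorem closed_drop {S : Set (Code X W)} (hS : S ⊆ Sall B) : Closed S (S ∪ {B.t}) := by
  refine ⟨Set.subset_union_left, ?_⟩
  rintro c hc F s hs a ha (h1 | h1)
  · exact h1
  · exact absurd h1 ((gd_Sall B (hS hc)).2.1 F s hs a ha)

omit [WellFoundedLT W] in
theorem Closed.of_subset {T S S' : Set (Code X W)} (h : Closed T S') (h1 : T ⊆ S)
    (h2 : S ⊆ S') : Closed T S :=
  ⟨h1, fun c hc F s hs a ha h3 => h.2 c hc F s hs a ha (h2 h3)⟩

/-- chain condition of a part determined by a set of stages closed downwards -/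
theorem CCCs_stages (S : Set (Code X W)) (hS : S ⊆ Sall B) (L : Set W) (hLne : L.Nonempty)
    (hL : ∀ c ∈ S, c.st ∈ L) (hS' : ∀ α ∈ L, Sle B α ⊆ S)
    (h : ∀ α ∈ L, CCCs (Sle B α ∪ {B.t} : Set (Code X W))) :
    CCCs (S ∪ {B.t}) := by
  apply CCCs_of_parts'
  intro r hr
  have hr' : ∀ c ∈ r.filter (fun c => c ≠ B.t), c ∈ S := by
    intro c hc
    rw [Finset.mem_filter] at hc
    exact (hr c hc.1).resolve_right hc.2
  obtain ⟨α, hα, h1⟩ : ∃ α ∈ L, ∀ c ∈ r.filter (fun c => c ≠ B.t), c ∈ Sle B α := by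
    rcases (r.filter (fun c => c ≠ B.t)).eq_empty_or_nonempty with he | hne
    · obtain ⟨α, hα⟩ := hLne
      exact ⟨α, hα, by rw [he]; simp⟩
    · obtain ⟨c0, hc0, hmax⟩ := Finset.exists_max_image _ Code.st hne
      refine ⟨c0.st, hL c0 (hr' c0 hc0), fun c hc => ?_⟩
      exact (mem_Sle B).2 ⟨hmax c hc, (mem_Sall B).1 (hS (hr' c hc))⟩
  refine ⟨Sle B α ∪ {B.t}, closed_add B hS
    ((closed_Sle B α).of_subset (hS' α hα) hS) (z_mem_Sle B α), fun c hc => ?_, h α hα⟩
  by_cases h2 : c = B.t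
  · exact Or.inr h2
  · exact Or.inl (h1 c (Finset.mem_filter.2 ⟨hc, h2⟩))

theorem Sle_bot : (Sle B B.o : Set (Code X W)) = {B.z} := by
  ext c
  rw [mem_Sle, Set.mem_singleton_iff]
  constructor
  · rintro ⟨h1, h2⟩
    have h3 : c.st = B.o := le_antisymm h1 (B.bot _)
    rw [h3, V_bot] at h2
    exact h2
  · rintro rfl
    exact ⟨B.st0.le, z_mem_V B⟩

theorem CCCs_Slt_of {α : W} (h : α ≠ B.o)
    (ih : ∀ β < α, CCCs (Sle B β ∪ {B.t} : Set (Code X W))) :
    CCCs (Slt B α ∪ {B.t} : Set (Code X W)) := by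
  apply CCCs_stages B _ (Slt_sub_Sall B α) (Set.Iio α)
    ⟨B.o, lt_of_le_of_ne (B.bot α) (Ne.symm h)⟩
  · intro c hc
    exact ((mem_Slt B).1 hc).1
  · intro β hβ c hc
    exact (mem_Slt B).2 ⟨((mem_Sle B).1 hc).1.trans_lt hβ, ((mem_Sle B).1 hc).2⟩
  · intro β hβ
    exact ih β hβ

theorem CCCs_Sle (α : W) : CCCs (Sle B α ∪ {B.t} : Set (Code X W)) := by
  induction α using WellFoundedLT.induction with
  | ind α ih =>
    by_cases h : α = B.o
    · subst h
      rw [Sle_bot]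
      exact B.ccc
    · have h1 := CCCs_Slt_of B h ih
      have h2 := maxM'_spec B (α := α) (S₀ := Slt B α) (fun c hc =>
        ⟨((mem_Slt B).1 hc).1, (V_sub B ((mem_Slt B).1 hc).2).2⟩) (z_mem_Slt B h) h1
      rw [Sle, V_eq B h]
      exact h2.1.2

theorem CCCs_Sall : CCCs (Sall B ∪ {B.t} : Set (Code X W)) := by
  apply CCCs_stages B _ (Set.Subset.refl _) Set.univ ⟨B.o, trivial⟩
  · exact fun _ _ => trivial
  · exact fun β _ => Sle_sub_Sall B β
  · exact fun β _ => CCCs_Sle B β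

/-- maximality -/
theorem mem_V_of {α : W} {c : Code X W} (h : α ≠ B.o) (h1 : c.st = α) (h2 : Gd B c)
    (h3 : CCCs ((Sle B α ∪ {c}) ∪ {B.t})) : c ∈ V B α := by
  have hm := maxM'_spec B (α := α) (S₀ := Slt B α) (fun c hc =>
      ⟨((mem_Slt B).1 hc).1, (V_sub B ((mem_Slt B).1 hc).2).2⟩) (z_mem_Slt B h)
      (CCCs_Slt_of B h fun β _ => CCCs_Sle B β)
  rw [← V_eq B h] at hm
  have h4 : V B α ∪ {c} ∈ Cand' B α (Slt B α : Set (Code X W)) := by
    refine ⟨?_, ?_⟩
    · rintro d (hd | hd)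
      · exact V_sub B hd
      · rw [Set.mem_singleton_iff.1 hd]
        exact ⟨h1, h2⟩
    · rw [← Set.union_assoc]
      exact h3
  exact hm.2 h4 Set.subset_union_left (Or.inr rfl)

end Run7.h144
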