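import Pool.Agent.W684.FM.Ambient
import Pool.Agent.Run7.h144.Stages
import Pool.Agent.Run7.h144.Defs

/-!
# Martin's axiom for preorders with property (K) can be forced: the iteration
-/

set_option autoImplicit false

namespace Run7.h144

open Classical Cardinal Pool.Agent.Helper669.Forcing Pool.Agent.W684.FM

section General

variable {P : Type} [Preorder P]

/-- a family of conditions indexed by `ω₁` is forced to meet the generic filter unboundedly
often -/
theorem exists_unb (hP : PCCC P) (q0 : P) (g : Om1 → P) (hle : ∀ ξ, g ξ ≤ q0) :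
    ∃ q ≤ q0, q ∈ UnbN fun ξ => ({g ξ} : Set P) := by
  by_contra hcon
  push Not at hcon
  let E : Set P := {r | r ≤ q0 ∧ ∃ a, ∀ s ≤ r, ∀ b, a < b → s ∉ meets ({g b} : Set P)}
  have hE : Down E := by
    rintro p ⟨h1, a, h2⟩ q hq
    exact ⟨hq.trans h1, a, fun s hs b hb => h2 s (hs.trans hq) b hb⟩
  have hdense : ∀ q ≤ q0, ∃ r ≤ q, r ∈ E := by
    intro q hq
    have h1 := hcon q hq
    have h2 : ∃ a, q ∉ fex fun b => fand (fground (a < b)) (meets ({g b} : Set P)) := by
      by_contra h3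
      push Not at h3
      exact h1 h3
    obtain ⟨a, ha⟩ := h2
    rw [mem_fex] at ha
    push Not at ha
    obtain ⟨r, hr, h3⟩ := ha
    exact ⟨r, hr, hr.trans hq, a, fun s hs b hab hsb => h3 s hs b ⟨hab, hsb⟩⟩
  obtain ⟨A, hA, hAE, hpre⟩ := exists_predense hP E hE
  have hA0 : A.Nonempty := by
    obtain ⟨r, _, hr⟩ := hdense q0 le_rfl
    obtain ⟨a, ha, _⟩ := hpre r hr
    exact ⟨a, ha⟩
  obtain ⟨k, hk⟩ := hA.exists_eq_range hA0
  have hkE : ∀ n, k n ∈ E := fun n => hAE (by rw [hk]; exact ⟨n, rfl⟩)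
  choose hk1 a ha using hkE
  obtain ⟨a', ha'⟩ := exists_bound a
  obtain ⟨b, hb⟩ := exists_gt_om1 a'
  obtain ⟨r, hr, hrE⟩ := hdense (g b) (hle _)
  obtain ⟨x, hx, s, hs1, hs2⟩ := hpre r hrE
  rw [hk] at hx
  obtain ⟨n, rfl⟩ := hx
  exact ha n s hs2 b ((ha' n).trans_lt hb) (meets_of_le rfl (hs1.trans hr))

theorem exists_le_of_meets_singleton {g p : P} (h : p ∈ meets ({g} : Set P)) :
    ∃ q ≤ p, q ≤ g := by
  obtain ⟨r, hr, s, hs, hrs⟩ := h p le_rfl
  exact ⟨r, hr, hrs.trans_eq hs⟩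

end General

variable {X W : Type} [LinearOrder W] [WellFoundedLT W]

omit [LinearOrder W] [WellFoundedLT W] in
theorem CCCs.family {S : Set (Code X W)} (hS : CCCs S) {ι : Type} {U : Set ι}
    (hU : ¬ U.Countable) (r : ι → Cond X W) (hr : ∀ b ∈ U, Valid S (r b)) :
    ∃ b ∈ U, ∃ b' ∈ U, b ≠ b' ∧ ∃ v, Valid S v ∧ r b ⊆ v ∧ r b' ⊆ v := by
  by_contra hcon
  push Not at hcon
  have hinj : Set.InjOn r U := by
    intro b hb b' hb' h
    by_contra hne
    exact hcon b hb b' hb' hne (r b) (hr b hb) (Finset.Subset.refl _)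
      (by rw [h])
  apply hU
  refine Set.countable_of_injective_of_countable_image hinj (hS _ ?_ ?_)
  · rintro _ ⟨b, hb, rfl⟩
    exact hr b hb
  · rintro _ ⟨b, hb, rfl⟩ _ ⟨b', hb', rfl⟩ hne ⟨v, hv, h1, h2⟩
    exact hcon b hb b' hb' (fun h => hne (by rw [h])) v hv h1 h2

variable (B : BD X W)

/-- the poset of the iteration -/
def PP : Type := {p : Cond X W // Valid (Sall B) p}

instance : Preorder (PP B) where
  le p q := q.1 ⊆ p.1
  le_refl p := Finset.Subset.refl _
  le_trans p q r h1 h2 := Finset.Subset.trans h2 h1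

theorem PP.le_def {p q : PP B} : p ≤ q ↔ q.1 ⊆ p.1 := Iff.rfl

theorem pccc : PCCC (PP B) := by
  intro A hA
  have h0 := CCCs.of_closed (closed_drop B (Set.Subset.refl _)) (CCCs_Sall B)
  have h1 : (Subtype.val '' A).Countable := by
    apply h0
    · rintro _ ⟨p, _, rfl⟩
      exact p.2
    · rintro _ ⟨p, hp, rfl⟩ _ ⟨q, hq, rfl⟩ hne ⟨r, hr, h1, h2⟩
      exact hA p hp q hq (fun h => hne (by rw [h])) ⟨⟨r, hr⟩, h1, h2⟩
  exact Set.countable_of_injective_of_countable_image Subtype.val_injective.injOn h1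

variable {B}

/-- restriction to the coordinates before stage `α` -/
noncomputable def rlt (α : W) (p : PP B) : PP B :=
  ⟨restr (Slt B α) p.1, (valid_restr' (closed_Slt B α) p.2).mono (Slt_sub_Sall B α)⟩

/-- all conditions in `N` only have coordinates of stages before `α` -/
def Below (α : W) (N : Set (PP B)) : Prop := ∀ s ∈ N, ∀ a ∈ s.1, a.1.st < α

theorem Below.memSlt {α : W} {N : Set (PP B)} (h : Below α N) {s : PP B} (hs : s ∈ N)
    {a : Code X W × X} (ha : a ∈ s.1) : a.1 ∈ Slt B α :=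
  (mem_Slt B).2 ⟨h s hs a ha, (mem_Sall B).1 (s.2 a ha).1⟩

theorem Slt_sub_Sle (α : W) : Slt B α ⊆ Sle B α := Set.subset_union_left

/-- names referring to the stages before `α` only are decided by the restrictions -/
theorem meets_rlt {α : W} {N : Set (PP B)} (hN : Below α N) {p : PP B} (hp : p ∈ meets N) :
    rlt α p ∈ meets N := by
  intro q hq
  have hq' : restr (Slt B α) p.1 ⊆ q.1 := hq
  have hv : Valid (Sall B) (restr (Slt B α) q.1 ∪ p.1) :=
    amalg_one (Slt_sub_Sall B α) p.2 (valid_restr' (closed_Slt B α) q.2)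
      (subset_restr hq' fun a ha => (mem_restr.1 ha).2)
  obtain ⟨r, hr, s, hs, hrs⟩ := hp ⟨_, hv⟩ ((PP.le_def B).2 Finset.subset_union_right)
  have hr' : restr (Slt B α) q.1 ∪ p.1 ⊆ r.1 := hr
  have hrs' : s.1 ⊆ r.1 := hrs
  have hv2 : Valid (Sall B) (restr (Slt B α) r.1 ∪ q.1) := by
    refine amalg_one (Slt_sub_Sall B α) q.2 (valid_restr' (closed_Slt B α) r.2) ?_
    refine subset_restr (Finset.Subset.trans Finset.subset_union_left hr') ?_
    exact fun a ha => (mem_restr.1 ha).2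
  refine ⟨⟨_, hv2⟩, (PP.le_def B).2 Finset.subset_union_right, s, hs, ?_⟩
  rw [PP.le_def]
  exact Finset.Subset.trans (subset_restr hrs' fun a ha => hN.memSlt hs ha)
    Finset.subset_union_left

theorem exists_below [Infinite X] (hW : Bdd X W) {ι : Type} (hι : #ι ≤ #X)
    (N : ι → Set (PP B)) (hN : ∀ i, (N i).Countable) : ∃ α, ∀ β, α ≤ β → ∀ i, Below β (N i) := by
  have h1 : #(⋃ i, ⋃ s ∈ N i, (fun a : Code X W × X => a.1.st) '' (s.1 : Set (Code X W × X))) ≤
      #X := by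
    refine (Cardinal.mk_iUnion_le _).trans ?_
    calc #ι * _ ≤ #X * ℵ₀ := by
          apply mul_le_mul' hι
          apply ciSup_le'
          intro i
          rw [Cardinal.le_aleph0_iff_set_countable]
          exact (hN i).biUnion fun s _ => (s.1.countable_toSet).image _
      _ ≤ #X := (Cardinal.mul_eq_left (Cardinal.aleph0_le_mk X) (Cardinal.aleph0_le_mk X)
          Cardinal.aleph0_ne_zero).le
  obtain ⟨α, hα⟩ := hW _ h1
  refine ⟨α, fun β hβ i s hs a ha => (hα _ ?_).trans_le hβ⟩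
  rw [Set.mem_iUnion]
  refine ⟨i, ?_⟩
  rw [Set.mem_iUnion₂]
  exact ⟨s, hs, a, ha, rfl⟩

section Step

/-- The data at the stage where the name `R` of a preorder is handled. -/
structure KData (α : W) (q0 : PP B) (R : X → X → Set (PP B)) (A : Finset X → Set (PP B))
    (c : Code X W) : Prop where
  hα : α ≠ B.o
  hpre : q0 ∈ IsPreN R
  hkn : q0 ∈ KnasterN R
  hR : ∀ x y, Below α (R x y)
  hA : ∀ F, Below α (A F)
  hAlb : ∀ F, ∀ a ∈ A F, a ≤ q0 ∧ ∃ z, ∀ x ∈ F, a ∈ meets (R z x)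
  hAd : ∀ F, ∀ p ≤ q0, (∃ z, ∀ x ∈ F, p ∈ meets (R z x)) → ∃ a ∈ A F, ∃ r, r ≤ p ∧ r ≤ a
  hst : c.st = α
  hnm : ∀ F s, s ∈ c.nm F ↔ ∃ a ∈ A F, s = a.1

variable {α : W} {q0 : PP B} {R : X → X → Set (PP B)} {A : Finset X → Set (PP B)}
    {c : Code X W}

theorem KData.ne_t (h : KData α q0 R A c) : c ≠ B.t := by
  rintro rfl
  exact h.hα (h.hst.symm.trans B.stt)

theorem KData.gd (h : KData α q0 R A c) : Gd B c := by
  refine ⟨?_, ?_, h.ne_t⟩
  · intro F s hs a ha
    obtain ⟨t, ht, rfl⟩ := (h.hnm F s).1 hs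
    rw [h.hst]
    exact h.hA F t ht a ha
  · intro F s hs a ha hat
    obtain ⟨t, ht, rfl⟩ := (h.hnm F s).1 hs
    have := (t.2 a ha).1
    rw [hat] at this
    exact t_notMem_Sall B this

theorem KData.notMem_Slt (h : KData α q0 R A c) : c ∉ Slt B α := fun hx => by
  have := ((mem_Slt B).1 hx).1
  rw [h.hst] at this
  exact lt_irrefl _ this

/-- the chain condition for one more coordinate, together with the extra coordinate -/
theorem KData.CCCs (h : KData α q0 R A c) : CCCs ((Sle B α ∪ {c}) ∪ {B.t}) := by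
  by_cases hc : c ∈ (Sle B α : Set (Code X W))
  · have : (Sle B α ∪ {c} : Set (Code X W)) = Sle B α := by
      rw [Set.union_eq_left, Set.singleton_subset_iff]
      exact hc
    rw [this]
    exact CCCs_Sle B α
  intro D hD hanti
  have htS : B.t ∉ (Sle B α : Set (Code X W)) := fun ht => t_notMem_Sall B (Sle_sub_Sall B α ht)
  -- closed parts
  have hcl1 : Closed (Sle B α) (Sle B α ∪ {c} ∪ {B.t} : Set (Code X W)) := by
    refine ⟨fun d hd => Or.inl (Or.inl hd), ?_⟩
    rintro d hd F s hs a ha ((h1 | h1) | h1)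
    · exact h1
    · exfalso
      rw [Set.mem_singleton_iff] at h1
      have h2 := (gd_Sall B (Sle_sub_Sall B α hd)).1 F s hs a ha
      rw [h1, h.hst] at h2
      exact absurd ((mem_Sle B).1 hd).1 (not_le.2 h2)
    · exact absurd h1 ((gd_Sall B (Sle_sub_Sall B α hd)).2.1 F s hs a ha)
  have hcl2 : Closed (Sle B α ∪ {B.t}) (Sle B α ∪ {c} ∪ {B.t} : Set (Code X W)) := by
    refine ⟨Set.union_subset_union_left _ Set.subset_union_left, ?_⟩
    rintro d (hd | hd) F s hs a ha h1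
    · exact Or.inl (hcl1.2 d hd F s hs a ha h1)
    · rw [Set.mem_singleton_iff] at hd
      subst hd
      rw [B.nmt F s hs a ha]
      exact Or.inl (z_mem_Sle B α)
  have hcl3 : Closed (Sle B α ∪ {B.t}) (Sall B ∪ {B.t} : Set (Code X W)) :=
    closed_add B (Set.Subset.refl _) (closed_Sle B α) (z_mem_Sle B α)
  -- the elements without coordinate `c`
  have h0 : {p ∈ D | ∀ x, (c, x) ∉ p}.Countable := by
    have hv : ∀ p ∈ {p ∈ D | ∀ x, (c, x) ∉ p}, Valid (Sle B α ∪ {B.t}) p := by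
      rintro p ⟨hp, hpc⟩
      refine (hD p hp).of_mem fun a ha => ?_
      rcases (hD p hp a ha).1 with (h1 | h1) | h1
      · exact Or.inl h1
      · exact absurd ha (by
          have := hpc a.2
          rw [← Set.mem_singleton_iff.1 h1] at this
          exact this)
      · exact Or.inr h1
    apply CCCs_Sle B α _ hv
    rintro p hp q hq hne ⟨r, hr, h1, h2⟩
    exact hanti p hp.1 q hq.1 hne ⟨r, hr.mono hcl2.1, h1, h2⟩
  -- the elements with coordinate `c`
  suffices h1 : {p ∈ D | ∃ x, (c, x) ∈ p}.Countable by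
    refine (h0.union h1).mono fun p hp => ?_
    by_cases h2 : ∃ x, (c, x) ∈ p
    · exact Or.inr ⟨hp, h2⟩
    · push Not at h2
      exact Or.inl ⟨hp, h2⟩
  by_contra hunc
  have : Nonempty X := by
    by_contra hne
    apply hunc
    convert Set.countable_empty
    rw [Set.eq_empty_iff_forall_notMem]
    rintro p ⟨_, x, _⟩
    exact hne ⟨x⟩
  let p' : Cond X W → PP B := fun p =>
    if hp : Valid (Sall B) (restr (Sle B α) p) then ⟨restr (Sle B α) p, hp⟩ else q0
  have hp' : ∀ p ∈ {p ∈ D | ∃ x, (c, x) ∈ p}, (p' p).1 = restr (Sle B α) p := by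
    rintro p ⟨hp, _⟩
    have hv : Valid (Sall B) (restr (Sle B α) p) :=
      (valid_restr' hcl1 (hD p hp)).mono (Sle_sub_Sall B α)
    simp only [p', dif_pos hv]
  have hz : ∀ p ∈ {p ∈ D | ∃ x, (c, x) ∈ p},
      p' p ≤ q0 ∧ ∃ z, ∀ x ∈ fib p c, p' p ∈ meets (R z x) := by
    rintro p ⟨hp, y, hy⟩
    obtain ⟨_, s, hs, hsp⟩ := hD p hp _ hy
    obtain ⟨a, ha, rfl⟩ := (h.hnm _ s).1 hs
    have hle : p' p ≤ a := by
      rw [PP.le_def, hp' p ⟨hp, y, hy⟩]
      exact subset_restr hsp fun b hb => Slt_sub_Sle α ((h.hA _).memSlt ha hb)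
    obtain ⟨h1, z, h2⟩ := h.hAlb _ a ha
    exact ⟨hle.trans h1, z, fun x hx => down_meets _ _ (h2 x hx) _ hle⟩
  choose! hle z hz using hz
  obtain ⟨e⟩ : Nonempty (Om1 ↪ {p ∈ D | ∃ x, (c, x) ∈ p}) := by
    rw [← Cardinal.le_def, Cardinal.mk_ord_toType]
    rw [← Cardinal.succ_aleph0, Order.succ_le_iff]
    rw [← not_le, Cardinal.le_aleph0_iff_set_countable]
    exact hunc
  obtain ⟨q, hq, hqZ⟩ := exists_unb (pccc B) q0 (fun ξ => p' (e ξ).1) fun ξ => hle _ (e ξ).2
  let Z : Om1 → Set (PP B) := fun ξ => {p' (e ξ).1}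
  let f : Om1 → X → Set (PP B) := fun ξ x => {_r | x = z (e ξ).1}
  have hfun : q ∈ IsFun f := by
    refine ⟨fun ξ => ?_, fun ξ x y => ?_⟩
    · exact mem_fex_of_mem (z (e ξ).1) (down_meets _) (meets_of_mem rfl)
    · rw [mem_fimp]
      rintro r hr ⟨h1, h2⟩
      obtain ⟨s, hs, t, ht, _⟩ := h1 r le_rfl
      obtain ⟨s', hs', t', ht', _⟩ := h2 r le_rfl
      refine ⟨r, le_rfl, ?_⟩
      have e1 : x = z (e ξ).1 := ht
      have e2 : y = z (e ξ).1 := ht'
      exact e1.trans e2.symm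
  have h1 := h.hkn Z f
  rw [mem_fimp] at h1
  obtain ⟨r1, hr1, h2⟩ := h1 q hq ⟨hqZ, hfun⟩
  obtain ⟨r2, hr2, Z', hZ1, hZ2, hZ3⟩ := mem_fex.1 h2 r1 le_rfl
  have hr2q : r2 ≤ q0 := hr2.trans (hr1.trans hq)
  -- uncountably many indices in the linked family
  let U : Set Om1 := {b | ∃ s ≤ r2, s ∈ meets (Z' b) ∧ s ≤ p' (e b).1}
  have hU : ¬ U.Countable := by
    intro hcU
    obtain ⟨a, ha⟩ : ∃ a, ∀ b ∈ U, b ≤ a := by
      rcases U.eq_empty_or_nonempty with h3 | h3
      · exact ⟨Classical.arbitrary Om1, by rw [h3]; simp⟩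
      · obtain ⟨k, hk⟩ := hcU.exists_eq_range h3
        obtain ⟨a, ha⟩ := exists_bound k
        refine ⟨a, ?_⟩
        rw [hk]
        rintro _ ⟨n, rfl⟩
        exact ha n
    obtain ⟨s, hs, b, hab, hsb⟩ := mem_fex.1 (hZ1 a) r2 le_rfl
    obtain ⟨s1, hs1, h3⟩ := mem_fimp.1 (hZ2 b) s hs hsb
    obtain ⟨s2, hs2, h4⟩ := exists_le_of_meets_singleton h3
    exact absurd (ha b ⟨s2, hs2.trans (hs1.trans hs),
      down_meets _ _ hsb _ (hs2.trans hs1), h4⟩) (not_le.2 hab)
  have hUc : ∀ b ∈ U, ∃ s ≤ r2, s ∈ meets (Z' b) ∧ s ≤ p' (e b).1 := fun b hb => hb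
  have hPne : Nonempty (PP B) := ⟨q0⟩
  choose! s hs1 hs2 hs3 using hUc
  let r : Om1 → Cond X W := fun b => (s b).1 ∪ restr (Sle B α ∪ {B.t}) (e b).1
  have hrv : ∀ b ∈ U, Valid (Sall B ∪ {B.t}) (r b) := by
    intro b hb
    refine amalg_one Set.subset_union_left ((valid_restr' hcl2 (hD _ (e b).2.1)).mono hcl3.1)
      (s b).2 ?_
    intro a ha
    rw [mem_restr, mem_restr] at ha
    obtain ⟨⟨h3, h4⟩, h5⟩ := ha
    have h6 : a.1 ∈ Sle B α := by
      rcases h4 with h4 | h4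
      · exact h4
      · rw [Set.mem_singleton_iff] at h4
        rw [h4] at h5
        exact absurd h5 (t_notMem_Sall B)
    have h7 := hs3 b hb
    rw [PP.le_def, hp' _ (e b).2] at h7
    exact h7 (mem_restr.2 ⟨h3, h6⟩)
  obtain ⟨b, hb, b', hb', hbb, v, hv, hv1, hv2⟩ := CCCs.family (CCCs_Sall B) hU r hrv
  let u : PP B := ⟨restr (Sall B) v, valid_restr' (closed_drop B (Set.Subset.refl _)) hv⟩
  have hus : u ≤ s b := by
    rw [PP.le_def]
    exact subset_restr (Finset.Subset.trans Finset.subset_union_left hv1)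
      fun a ha => ((s b).2 a ha).1
  have hus' : u ≤ s b' := by
    rw [PP.le_def]
    exact subset_restr (Finset.Subset.trans Finset.subset_union_left hv2)
      fun a ha => ((s b').2 a ha).1
  have hur : u ≤ r2 := hus.trans (hs1 b hb)
  obtain ⟨u1, hu1, h3⟩ := mem_fimp.1 (hZ3 b b') u hur
    ⟨down_meets _ _ (hs2 b hb) _ hus, down_meets _ _ (hs2 b' hb') _ hus'⟩
  obtain ⟨u2, hu2, x, h4⟩ := mem_fex.1 h3 u1 le_rfl
  obtain ⟨u3, hu3, y, h5, h6, h7⟩ := mem_fex.1 h4 u2 le_rfl
  obtain ⟨u4, hu4, w, hw1, hw2⟩ := mem_fex.1 h7 u3 le_rfl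
  have hx : x = z (e b).1 := by
    obtain ⟨_, _, t, ht, _⟩ := h5 u3 le_rfl
    exact ht
  have hy : y = z (e b').1 := by
    obtain ⟨_, _, t, ht, _⟩ := h6 u3 le_rfl
    exact ht
  subst hx hy
  have hu4u : u4 ≤ u := hu4.trans (hu3.trans (hu2.trans hu1))
  have huq : u4 ≤ q0 := hu4u.trans (hur.trans hr2q)
  have hupre : u4 ∈ IsPreN R := down_IsPreN R _ h.hpre _ huq
  have hup1 : u4 ≤ p' (e b).1 := hu4u.trans (hus.trans (hs3 b hb))
  have hup2 : u4 ≤ p' (e b').1 := hu4u.trans (hus'.trans (hs3 b' hb'))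
  have hlb : ∀ x ∈ fib (e b).1 c ∪ fib (e b').1 c, u4 ∈ meets (R w x) := by
    intro x hx
    rcases Finset.mem_union.1 hx with h1 | h1
    · exact IsPreN.trans hupre hw1 (down_meets _ _ (hz _ (e b).2 x h1) _ hup1)
    · exact IsPreN.trans hupre hw2 (down_meets _ _ (hz _ (e b').2 x h1) _ hup2)
  obtain ⟨a, ha, u5, hu5u, hu5a⟩ := h.hAd _ u4 huq ⟨w, hlb⟩
  have hres : Valid (Sle B α) (restr (Sle B α) u5.1) := valid_restr' (closed_Sle B α) u5.2
  let G : Finset X := fib (e b).1 c ∪ fib (e b').1 c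
  let t0 : Cond X W := restr (Sle B α) u5.1 ∪ G.image fun x => (c, x)
  have hmem : ∀ d, d ∈ t0 ↔ d ∈ restr (Sle B α) u5.1 ∨ (d.1 = c ∧ d.2 ∈ G) := by
    rintro ⟨d, x⟩
    simp only [t0, Finset.mem_union, Finset.mem_image, Prod.mk.injEq]
    constructor
    · rintro (h1 | ⟨y, hy, rfl, rfl⟩)
      · exact Or.inl h1
      · exact Or.inr ⟨rfl, hy⟩
    · rintro (h1 | ⟨rfl, h1⟩)
      · exact Or.inl h1
      · exact Or.inr ⟨x, h1, rfl, rfl⟩
  have hnc : ∀ x, (c, x) ∉ restr (Sle B α) u5.1 := fun x hx => hc (mem_restr.1 hx).2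
  have ht : Valid (Sle B α ∪ {c}) t0 := by
    intro d hd
    rcases (hmem d).1 hd with h1 | ⟨h1, h2⟩
    · obtain ⟨h3, s, hs, hst⟩ := hres d h1
      refine ⟨Or.inl h3, s, ?_, hst.trans Finset.subset_union_left⟩
      have h4 : fib t0 d.1 = fib (restr (Sle B α) u5.1) d.1 := fib_congr fun x => by
        rw [hmem]
        constructor
        · rintro (h5 | ⟨h5, _⟩)
          · exact h5
          · simp only at h5
            rw [h5] at h3
            exact absurd h3 hc
        · exact Or.inl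
      rw [h4]
      exact hs
    · refine ⟨Or.inr h1, a.1, ?_, ?_⟩
      · have h4 : fib t0 d.1 = G := by
          ext x
          rw [mem_fib, hmem, h1]
          constructor
          · rintro (h5 | ⟨_, h5⟩)
            · exact absurd h5 (hnc x)
            · exact h5
          · exact fun h5 => Or.inr ⟨rfl, h5⟩
        rw [h4, h1, h.hnm]
        exact ⟨a, ha, rfl⟩
      · refine Finset.Subset.trans ?_ Finset.subset_union_left
        exact subset_restr hu5a fun b hb => Slt_sub_Sle α ((h.hA _).memSlt ha hb)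
  let v' : Cond X W := restr (Sle B α ∪ {B.t}) v
  have hv' : Valid (Sle B α ∪ {B.t}) v' := valid_restr' hcl3 hv
  have hfin : Valid (Sle B α ∪ {c} ∪ {B.t}) (t0 ∪ v') := by
    refine amalg_one Set.subset_union_left (hv'.mono hcl2.1) ht ?_
    intro d hd
    rw [mem_restr, mem_restr] at hd
    obtain ⟨⟨h3, h4⟩, h5⟩ := hd
    have h6 : d.1 ∈ Sle B α := by
      rcases h4 with h4 | h4
      · exact h4
      · rw [Set.mem_singleton_iff] at h4
        rw [h4] at h5
        rcases h5 with h5 | h5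
        · exact absurd h5 htS
        · exact absurd h5 h.ne_t.symm
    rw [hmem]
    left
    have h7 : u5 ≤ u := hu5u.trans hu4u
    rw [PP.le_def] at h7
    exact mem_restr.2 ⟨h7 (mem_restr.2 ⟨h3, Sle_sub_Sall B α h6⟩), h6⟩
  have hsub : ∀ k : Om1, r k ⊆ v → u4 ≤ p' (e k).1 → fib (e k).1 c ⊆ G →
      (e k).1 ⊆ t0 ∪ v' := by
    intro k hk hup hG d hd
    rcases (hD _ (e k).2.1 d hd).1 with (h1 | h1) | h1
    · apply Finset.mem_union_left
      rw [hmem]
      left
      rw [PP.le_def, hp' _ (e k).2] at hup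
      rw [PP.le_def] at hu5u
      exact mem_restr.2 ⟨hu5u (hup (mem_restr.2 ⟨hd, h1⟩)), h1⟩
    · apply Finset.mem_union_left
      rw [hmem]
      right
      have h2 : d.1 = c := h1
      refine ⟨h2, hG ?_⟩
      rw [mem_fib]
      have h3 : (c, d.2) = d := Prod.ext h2.symm rfl
      rw [h3]
      exact hd
    · apply Finset.mem_union_right
      have h2 : d ∈ restr (Sle B α ∪ {B.t}) (e k).1 := mem_restr.2 ⟨hd, Or.inr h1⟩
      exact mem_restr.2 ⟨hk (Finset.mem_union_right _ h2), Or.inr h1⟩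
  exact hanti _ (e b).2.1 _ (e b').2.1 (fun h => hbb (e.injective (Subtype.ext h)))
    ⟨t0 ∪ v', hfin, hsub b hv1 hup1 Finset.subset_union_left,
      hsub b' hv2 hup2 Finset.subset_union_right⟩

theorem KData.mem_V (h : KData α q0 R A c) : c ∈ V B α := mem_V_of B h.hα h.hst h.gd h.CCCs

theorem KData.mem_Sall (h : KData α q0 R A c) : c ∈ (Sall B : Set (Code X W)) :=
  (Run7.h144.mem_Sall B).2 (by rw [h.hst]; exact h.mem_V)

/-- a condition extends to one which puts into the filter an element of a given dense set below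
all elements already put into it -/
theorem KData.ext [Nonempty X] (h : KData α q0 R A c) {D : X → Set (PP B)}
    (hD : q0 ∈ IsDenseN R D) (hDb : ∀ x, Below α (D x)) {q : PP B} (hq : q ≤ q0) :
    ∃ r ≤ q, ∃ d, (c, d) ∈ r.1 ∧ r ∈ meets (D d) ∧ ∀ x, (c, x) ∈ q.1 → r ∈ meets (R d x) := by
  have hz : ∃ z, ∀ x ∈ fib q.1 c, q ∈ meets (R z x) := by
    rcases (fib q.1 c).eq_empty_or_nonempty with h1 | ⟨y, hy⟩
    · rw [h1]
      exact ⟨Classical.arbitrary X, by simp⟩
    · rw [mem_fib] at hy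
      obtain ⟨_, s, hs, hsq⟩ := q.2 _ hy
      obtain ⟨a, ha, rfl⟩ := (h.hnm _ s).1 hs
      obtain ⟨_, z, hz⟩ := h.hAlb _ a ha
      exact ⟨z, fun x hx => down_meets _ _ (hz x hx) _ hsq⟩
  obtain ⟨z, hz⟩ := hz
  obtain ⟨u, hu, d, hud, hur⟩ := mem_fex.1 (hD z) q hq
  have huq : u ≤ q0 := hu.trans hq
  have hupre : u ∈ IsPreN R := down_IsPreN R _ h.hpre _ huq
  have hdx : ∀ x ∈ insert d (fib q.1 c), u ∈ meets (R d x) := by
    intro x hx
    rcases Finset.mem_insert.1 hx with rfl | hx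
    · exact IsPreN.refl hupre _
    · exact IsPreN.trans hupre hur (down_meets _ _ (hz x hx) _ hu)
  obtain ⟨a, ha, u2, hu2u, hu2a⟩ := h.hAd _ u huq ⟨d, hdx⟩
  have hres : Valid (Slt B α) (restr (Slt B α) u2.1) := valid_restr' (closed_Slt B α) u2.2
  have hqu2 : q.1 ⊆ u2.1 := (hu2u.trans hu : u2 ≤ q)
  have hv : Valid (Sall B) (restr (Slt B α) u2.1 ∪ q.1) :=
    amalg_one (Slt_sub_Sall B α) q.2 hres (restr_mono hqu2)
  let t : Cond X W := insert (c, d) (restr (Slt B α) u2.1 ∪ q.1)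
  have hnc : ∀ x, (c, x) ∉ restr (Slt B α) u2.1 := fun x hx => h.notMem_Slt (mem_restr.1 hx).2
  have haub : a.1 ⊆ restr (Slt B α) u2.1 := subset_restr hu2a fun b hb => (h.hA _).memSlt ha hb
  have ht : Valid (Sall B) t := by
    intro b hb
    by_cases hbc : b.1 = c
    · refine ⟨by rw [hbc]; exact h.mem_Sall, a.1, ?_, ?_⟩
      · have h4 : fib t b.1 = insert d (fib q.1 c) := by
          ext x
          rw [mem_fib, Finset.mem_insert, Finset.mem_insert, Finset.mem_union, mem_fib, hbc]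
          constructor
          · rintro (h5 | h5 | h5)
            · exact Or.inl (Prod.mk.inj h5).2
            · exact absurd h5 (hnc x)
            · exact Or.inr h5
          · rintro (rfl | h5)
            · exact Or.inl rfl
            · exact Or.inr (Or.inr h5)
        rw [h4, hbc, h.hnm]
        exact ⟨a, ha, rfl⟩
      · exact haub.trans (Finset.subset_union_left.trans (Finset.subset_insert _ _))
    · have hb' : b ∈ restr (Slt B α) u2.1 ∪ q.1 := by
        rcases Finset.mem_insert.1 hb with h1 | h1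
        · exact absurd (by rw [h1]) hbc
        · exact h1
      obtain ⟨h1, s, hs, hst⟩ := hv b hb'
      refine ⟨h1, s, ?_, hst.trans (Finset.subset_insert _ _)⟩
      have h4 : fib t b.1 = fib (restr (Slt B α) u2.1 ∪ q.1) b.1 := fib_congr fun x => by
        rw [Finset.mem_insert]
        constructor
        · rintro (h5 | h5)
          · exact absurd (Prod.mk.inj h5).1 hbc
          · exact h5
        · exact Or.inr
      rw [h4]
      exact hs
  let r : PP B := ⟨t, ht⟩
  have hrle : r ≤ rlt α u2 := by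
    rw [PP.le_def]
    exact Finset.Subset.trans Finset.subset_union_left (Finset.subset_insert _ _)
  refine ⟨r, ?_, d, Finset.mem_insert_self _ _, ?_, ?_⟩
  · rw [PP.le_def]
    exact Finset.Subset.trans Finset.subset_union_right (Finset.subset_insert _ _)
  · exact down_meets _ _ (meets_rlt (hDb d) (down_meets _ _ hud _ hu2u)) _ hrle
  · intro x hx
    have h1 : u2 ∈ meets (R d x) :=
      down_meets _ _ (hdx x (Finset.mem_insert_of_mem (mem_fib.2 hx))) _ hu2u
    exact down_meets _ _ (meets_rlt (h.hR d x) h1) _ hrle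

/-- the generic filter -/
def genF (c : Code X W) (R : X → X → Set (PP B)) : X → Set (PP B) :=
  fun y => {p | ∃ x, (c, x) ∈ p.1 ∧ p ∈ meets (R x y)}

theorem down_genF (c : Code X W) (R : X → X → Set (PP B)) (y : X) : Down (genF c R y) := by
  rintro p ⟨x, hx, hp⟩ q hq
  exact ⟨x, hq hx, down_meets _ _ hp _ hq⟩

theorem KData.filter [Nonempty X] (h : KData α q0 R A c) {D : X → X → Set (PP B)}
    (hD : ∀ i, q0 ∈ IsDenseN R (D i)) (hDb : ∀ i x, Below α (D i x)) :
    q0 ∈ fand (IsFilterN R (genF c R))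
        (fall fun i => fex fun x => fand (meets (genF c R x)) (meets (D i x))) := by
  have i0 : X := Classical.arbitrary X
  have hmeet : q0 ∈ fall fun i => fex fun x => fand (meets (genF c R x)) (meets (D i x)) := by
    intro i
    rw [mem_fex]
    intro q hq
    obtain ⟨r, hr, d, hd, hrD, _⟩ := h.ext (hD i) (hDb i) hq
    have hrpre : r ∈ IsPreN R := down_IsPreN R _ h.hpre _ (hr.trans hq)
    exact ⟨r, hr, d, meets_of_mem ⟨d, hd, IsPreN.refl hrpre d⟩, hrD⟩
  refine ⟨⟨?_, ?_, ?_⟩, hmeet⟩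
  · rw [mem_fex]
    intro q hq
    obtain ⟨r, hr, x, hx, _⟩ := mem_fex.1 (hmeet i0) q hq
    exact ⟨r, hr, x, hx⟩
  · intro x y
    rw [mem_fimp]
    rintro q hq ⟨h1, h2⟩
    obtain ⟨r, hr, x', hx', hrx⟩ := exists_of_meets (down_genF c R x) h1
    have hrpre : r ∈ IsPreN R := down_IsPreN R _ h.hpre _ (hr.trans hq)
    exact ⟨r, hr, meets_of_mem ⟨x', hx', IsPreN.trans hrpre hrx (down_meets _ _ h2 _ hr)⟩⟩
  · intro x y
    rw [mem_fimp]
    rintro q hq ⟨h1, h2⟩
    obtain ⟨r, hr, x', hx', hrx⟩ := exists_of_meets (down_genF c R x) h1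
    obtain ⟨s, hs, y', hy', hsy⟩ :=
      exists_of_meets (down_genF c R y) (down_meets _ _ h2 _ hr)
    have hsq : s ≤ q0 := hs.trans (hr.trans hq)
    obtain ⟨t, ht, d, hd, _, htd⟩ := h.ext (hD i0) (hDb i0) hsq
    have htpre : t ∈ IsPreN R := down_IsPreN R _ h.hpre _ (ht.trans hsq)
    refine ⟨t, ht.trans (hs.trans hr), ?_⟩
    refine mem_fex_of_mem d (down_fand (down_meets _) (down_fand (down_meets _) (down_meets _)))
      ⟨meets_of_mem ⟨d, hd, IsPreN.refl htpre d⟩, ?_, ?_⟩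
    · exact IsPreN.trans htpre (htd x' (hs hx')) (down_meets _ _ hrx _ (ht.trans hs))
    · exact IsPreN.trans htpre (htd y' hy') (down_meets _ _ hsy _ ht)

end Step

/-- The iteration forces Martin's axiom for preorders with property (K). -/
theorem martinKHolds [Infinite X] (hW : Bdd X W) (p : PP B) : p ∈ MartinKHolds (PP B) X := by
  intro R D
  rw [mem_fimp]
  rintro q0 _ ⟨hpre, hkn, hD⟩
  refine ⟨q0, le_rfl, ?_⟩
  -- countable names
  choose R' hR'c hR' using fun x y => exists_countable_name (pccc B) (R x y)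
  choose D' hD'c hD' using fun i x => exists_countable_name (pccc B) (D i x)
  have hRe : ∀ x y, meets (R x y) = meets (R' x y) := fun x y => (hR' x y).symm
  have hDe : ∀ i x, meets (D i x) = meets (D' i x) := fun i x => (hD' i x).symm
  have hpre' : q0 ∈ IsPreN R' := by
    simpa only [IsPreN, hRe] using hpre
  have hkn' : q0 ∈ KnasterN R' := by
    simpa only [KnasterN, CompatN, hRe] using hkn
  have hD2 : ∀ i, q0 ∈ IsDenseN R' (D' i) := by
    intro i
    have := hD i
    simpa only [IsDenseN, hRe, hDe] using this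
  choose A hAc hAlb hAd using fun F : Finset X => exists_predense (P := PP B) (pccc B)
    {r | r ≤ q0 ∧ ∃ z, ∀ x ∈ F, r ∈ meets (R' z x)} (by
      rintro r ⟨h1, z, h2⟩ s hs
      exact ⟨hs.trans h1, z, fun x hx => down_meets _ _ (h2 x hx) _ hs⟩)
  obtain ⟨α1, h1⟩ := exists_below hW (ι := X × X) (by simp) (fun i => R' i.1 i.2)
    fun i => hR'c i.1 i.2
  obtain ⟨α2, h2⟩ := exists_below hW (ι := X × X) (by simp) (fun i => D' i.1 i.2)
    fun i => hD'c i.1 i.2
  obtain ⟨α3, h3⟩ := exists_below hW (ι := Finset X) (by simp) A hAc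
  obtain ⟨α4, h4⟩ := hW {B.o} (by
    rw [mk_singleton]
    exact one_le_aleph0.trans (aleph0_le_mk X))
  let α := max α4 (max α1 (max α2 α3))
  have hα4 : α4 ≤ α := le_max_left _ _
  have hα1 : α1 ≤ α := (le_max_left _ _).trans (le_max_right _ _)
  have hα2 : α2 ≤ α := (le_max_left _ _).trans ((le_max_right _ _).trans (le_max_right _ _))
  have hα3 : α3 ≤ α := (le_max_right _ _).trans ((le_max_right _ _).trans (le_max_right _ _))
  have hαo : α ≠ B.o := ((h4 B.o rfl).trans_le hα4).ne'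
  obtain ⟨c, hcst, hcnm⟩ := Code.exists_code α (fun F => Subtype.val '' A F)
    fun F => (hAc F).image _
  have hdata : KData α q0 R' A c := by
    refine ⟨hαo, hpre', hkn', fun x y => h1 α hα1 (x, y), fun F => h3 α hα3 F,
      fun F a ha => hAlb F ha, ?_, hcst, ?_⟩
    · intro F p hp hz
      exact hAd F p ⟨hp, hz⟩
    · intro F s
      rw [hcnm]
      constructor
      · rintro ⟨a, ha, rfl⟩
        exact ⟨a, ha, rfl⟩
      · rintro ⟨a, ha, rfl⟩
        exact ⟨a, ha, rfl⟩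
  have hfil := hdata.filter hD2 (fun i x => h2 α hα2 (i, x))
  refine mem_fex_of_mem (genF c R') (down_fand (down_IsFilterN _ _)
    (down_fall fun _ => down_fex _)) ?_
  simpa only [IsFilterN, hRe, hDe] using hfil

end Run7.h144
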