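import Pool.Agent.Run7.h144.Tree

/-!
# Piecewise constant functions on `ω₁` with values in a countable group
-/

set_option autoImplicit false

namespace Run7.h144

open Classical Set Pool.Agent.W684.FM

/-! ### A countable group with a paradoxical set -/

/-- A countable group with a set `D` which has infinitely many pairwise disjoint translates and
two translates which cover the group. -/
structure Paradox (Γ : Type) [Group Γ] where
  D : Set Γ
  g : ℕ → Γ
  c : Γ
  disj : ∀ i j x, i ≠ j → ¬ (g i * x ∈ D ∧ g j * x ∈ D)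
  cov : ∀ x, x ∉ D → c * x ∈ D

theorem exists_perm (A B : Set ℕ) (hA : A.Infinite) (hB : B.Infinite) (hA' : Aᶜ.Infinite)
    (hB' : Bᶜ.Infinite) : ∃ σ : Equiv.Perm ℕ, ∀ x, σ x ∈ B ↔ x ∈ A := by
  have := hA.to_subtype
  have := hB.to_subtype
  have : Infinite {x // ¬ x ∈ A} := hA'.to_subtype
  have : Infinite {x // ¬ x ∈ B} := hB'.to_subtype
  obtain ⟨e1⟩ := nonempty_equiv_of_countable (α := {x // x ∈ A}) (β := {x // x ∈ B})
  obtain ⟨e2⟩ := nonempty_equiv_of_countable (α := {x // ¬ x ∈ A}) (β := {x // ¬ x ∈ B})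
  refine ⟨Equiv.subtypeCongr e1 e2, fun x => ?_⟩
  by_cases hx : x ∈ A
  · simp only [hx, iff_true]
    rw [Equiv.subtypeCongr, Equiv.trans_apply, Equiv.trans_apply,
      Equiv.sumCompl_symm_apply_of_pos hx]
    simp
  · simp only [hx, iff_false]
    rw [Equiv.subtypeCongr, Equiv.trans_apply, Equiv.trans_apply,
      Equiv.sumCompl_symm_apply_of_neg hx]
    simpa using (e2 ⟨x, hx⟩).2

abbrev Gam : Type := FreeGroup (Option ℕ)

instance : Countable Gam := by
  unfold Gam FreeGroup
  infer_instance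

theorem exists_paradox : Nonempty (Paradox Gam) := by
  -- the even numbers are split into infinitely many infinite sets
  let E : ℕ → Set ℕ := fun i => {n | (Nat.unpair n).1 = i + 1}
  let D : Set ℕ := {n | (Nat.unpair n).1 = 0}
  have hinf : ∀ i, ({n | (Nat.unpair n).1 = i} : Set ℕ).Infinite := by
    intro i
    refine Set.infinite_of_injective_forall_mem (f := fun j => Nat.pair i j) ?_ ?_
    · intro a b h
      exact ((Nat.pair_eq_pair).1 h).2
    · intro j
      simp
  have hE : ∀ i, (E i).Infinite := fun i => hinf (i + 1)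
  have hE' : ∀ i, (E i)ᶜ.Infinite := fun i => (hinf 0).mono fun n hn h => by
    have h1 : (Nat.unpair n).1 = 0 := hn
    have h2 : (Nat.unpair n).1 = i + 1 := h
    omega
  have hD : D.Infinite := hinf 0
  have hD' : Dᶜ.Infinite := (hinf 1).mono fun n hn h => by
    have h1 : (Nat.unpair n).1 = 1 := hn
    have h2 : (Nat.unpair n).1 = 0 := h
    omega
  choose σ hσ using fun i => exists_perm (E i) D (hE i) hD (hE' i) hD'
  obtain ⟨τ, hτ⟩ := exists_perm Dᶜ D hD' hD (by simpa using hD) hD'
  let φ : FreeGroup (Option ℕ) →* Equiv.Perm ℕ := FreeGroup.lift fun o => o.elim τ σ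
  refine ⟨{
    D := {x | φ x 0 ∈ D}
    g := fun i => FreeGroup.of (some i)
    c := FreeGroup.of none
    disj := ?_
    cov := ?_ }⟩
  · rintro i j x hij ⟨h1, h2⟩
    have e1 : φ (FreeGroup.of (some i) * x) 0 = σ i (φ x 0) := by
      simp [φ]
    have e2 : φ (FreeGroup.of (some j) * x) 0 = σ j (φ x 0) := by
      simp [φ]
    rw [mem_setOf_eq, e1, hσ] at h1
    rw [mem_setOf_eq, e2, hσ] at h2
    have h3 : (Nat.unpair (φ x 0)).1 = i + 1 := h1
    have h4 : (Nat.unpair (φ x 0)).1 = j + 1 := h2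
    omega
  · intro x hx
    have e1 : φ (FreeGroup.of none * x) 0 = τ (φ x 0) := by
      simp [φ]
    rw [mem_setOf_eq, e1, hτ]
    exact hx

/-! ### Piecewise constant functions -/

variable {Γ : Type}

/-- the function coded by a list of pairs (breakpoint, value) and a final value -/
noncomputable def ev : List (Om1 × Γ) → Γ → Om1 → Γ
  | [], g, _ => g
  | (b, x) :: l, g, α => if α < b then x else ev l g α

theorem ev_nil (g : Γ) (α : Om1) : ev [] g α = g := rfl

theorem ev_cons (b : Om1) (x : Γ) (l : List (Om1 × Γ)) (g : Γ) (α : Om1) :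
    ev ((b, x) :: l) g α = if α < b then x else ev l g α := rfl

/-- piecewise constant functions -/
def IsPC (h : Om1 → Γ) : Prop := ∃ l g, h = ev l g

theorem IsPC.const (g : Γ) : IsPC fun _ : Om1 => g := ⟨[], g, rfl⟩

theorem ev_ite (b : Om1) (l : List (Om1 × Γ)) (g : Γ) (l' : List (Om1 × Γ)) (g' : Γ) (α : Om1) :
    ev (l.map (fun e => (min e.1 b, e.2)) ++ (b, g) :: l') g' α =
      if α < b then ev l g α else ev l' g' α := by
  induction l with
  | nil => rfl
  | cons e l ih =>
    obtain ⟨c, x⟩ := e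
    rw [List.map_cons, List.cons_append, ev_cons, ev_cons, ih]
    by_cases h1 : α < b
    · by_cases h2 : α < c
      · simp [h1, h2]
      · simp [h1, h2]
    · simp [h1]

theorem IsPC.ite {h k : Om1 → Γ} (hh : IsPC h) (hk : IsPC k) (b : Om1) :
    IsPC fun α => if α < b then h α else k α := by
  obtain ⟨l, g, rfl⟩ := hh
  obtain ⟨l', g', rfl⟩ := hk
  exact ⟨_, _, funext fun α => (ev_ite b l g l' g' α).symm⟩

theorem IsPC.map {Γ' : Type} {h : Om1 → Γ} (hh : IsPC h) (F : Γ → Γ') :
    IsPC fun α => F (h α) := by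
  obtain ⟨l, g, rfl⟩ := hh
  refine ⟨l.map fun e => (e.1, F e.2), F g, ?_⟩
  funext α
  induction l with
  | nil => rfl
  | cons e l ih =>
    obtain ⟨c, x⟩ := e
    rw [List.map_cons, ev_cons, ev_cons]
    by_cases h2 : α < c
    · simp [h2]
    · simp only [h2, if_false]
      exact ih

theorem IsPC.map₂ {Γ' Γ'' : Type} {h : Om1 → Γ} {k : Om1 → Γ'} (hh : IsPC h) (hk : IsPC k)
    (F : Γ → Γ' → Γ'') : IsPC fun α => F (h α) (k α) := by
  obtain ⟨l, g, rfl⟩ := hh
  induction l with
  | nil => exact hk.map (F g)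
  | cons e l ih =>
    obtain ⟨c, x⟩ := e
    have h1 := (hk.map (F x)).ite ih c
    have h2 : (fun α => F (ev ((c, x) :: l) g α) (k α)) =
        fun α => if α < c then F x (k α) else F (ev l g α) (k α) := by
      funext α
      rw [ev_cons]
      by_cases h2 : α < c <;> simp [h2]
    rw [h2]
    exact h1

theorem IsPC.mul [Group Γ] {h k : Om1 → Γ} (hh : IsPC h) (hk : IsPC k) :
    IsPC fun α => h α * k α := hh.map₂ hk fun x y => x * y

theorem IsPC.inv [Group Γ] {h : Om1 → Γ} (hh : IsPC h) : IsPC fun α => (h α)⁻¹ :=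
  hh.map fun x => x⁻¹

/-- codes with breakpoints up to `β` -/
def Cds (Γ : Type) (β : Om1) : Set (List (Om1 × Γ) × Γ) := {c | ∀ e ∈ c.1, e.1 ≤ β}

theorem countable_Cds [Countable Γ] (β : Om1) : (Cds Γ β).Countable := by
  have h1 : ({e : Om1 × Γ | e.1 ≤ β}).Countable :=
    ((countable_Iic β).prod (Set.countable_univ (α := Γ))).mono fun e he =>
      Set.mem_prod.2 ⟨he, mem_univ _⟩
  have h2 : ({l : List (Om1 × Γ) | ∀ e ∈ l, e ∈ {e : Om1 × Γ | e.1 ≤ β}}).Countable := by
    rw [← Set.range_list_map_coe]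
    have := h1.to_subtype
    exact countable_range _
  exact (h2.prod (Set.countable_univ (α := Γ))).mono fun c hc => Set.mem_prod.2 ⟨hc, mem_univ _⟩

theorem IsPC.exists_code {h : Om1 → Γ} (hh : IsPC h) (β : Om1) :
    ∃ c ∈ Cds Γ β, ∀ α ≤ β, h α = ev c.1 c.2 α := by
  obtain ⟨l, g, rfl⟩ := hh
  induction l with
  | nil => exact ⟨([], g), by simp [Cds], fun _ _ => rfl⟩
  | cons e l ih =>
    obtain ⟨b, x⟩ := e
    obtain ⟨c, hc, h1⟩ := ih
    by_cases hb : b ≤ β
    · refine ⟨((b, x) :: c.1, c.2), ?_, fun α hα => ?_⟩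
      · intro e he
        rcases List.mem_cons.1 he with rfl | he
        · exact hb
        · exact hc e he
      · rw [ev_cons, ev_cons, h1 α hα]
    · refine ⟨([], x), by simp [Cds], fun α hα => ?_⟩
      rw [ev_cons, if_pos (hα.trans_lt (not_le.1 hb))]
      rfl

end Run7.h144
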