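import Pool.Agent.Run7.h144.Base
import Pool.Agent.Run7.h144.Forced

/-!
# The iteration forces that there is a rich Suslin tree
-/

set_option autoImplicit false

namespace Run7.h144

open Classical Set Pool.Agent.Helper669.Forcing Pool.Agent.W684.FM

variable {W : Type} [LinearOrder W]

/-- the base data -/
noncomputable def bd (o : W) (ho : ∀ w, o ≤ w) : BD Om1 W where
  o := o
  z := c0 o
  t := ct o
  bot := ho
  st0 := c0_st o
  stt := ct_st o
  nm0 := fun F s hs => by
    rw [c0_nm] at hs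
    exact hs.1
  nmt := fun F s hs a ha => by
    rw [ct_nm] at hs
    exact (hs.1 a ha).1
  ne := c0_ne_ct o
  ccc := CCCs_base o

variable [WellFoundedLT W] {o : W} {ho : ∀ w, o ≤ w}

/-- the value of the function coded by an assertion -/
noncomputable def val (x : Om1) : Om1 → Gam := ev (encA x).2.2.1 (encA x).2.2.2

theorem val_pc (x : Om1) : IsPC (val x) := ⟨_, _, rfl⟩

theorem real (u : PP (bd o ho)) : ∃ w, Sys w ∧ ∀ x, (c0 o, x) ∈ u.1 → ∀ α, α ≤ (encA x).1 →
    α ≤ (encA x).2.1 → (w (encA x).2.1 α)⁻¹ * w (encA x).1 α = val x α := by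
  obtain ⟨w, _, hw, _, hF, _⟩ := exists_real o u.2
  exact ⟨w, hw, fun x hx α h1 h2 => hF x (mem_fib.2 hx) α h1 h2⟩

theorem dec (u : PP (bd o ho)) (β γ : Om1) :
    ∃ u' ≤ u, ∃ x, (c0 o, x) ∈ u'.1 ∧ (encA x).1 = β ∧ (encA x).2.1 = γ := by
  obtain ⟨w, _, hw, _, hF, _⟩ := exists_real o u.2
  obtain ⟨h1, h2, _, h3⟩ := asr_spec hw β γ
  have hv : Valid (Sall (bd o ho)) (insert (c0 o, asr w β γ) u.1) := by
    intro a ha
    by_cases hc : a.1 = c0 o
    · refine ⟨by rw [hc]; exact z_mem_Sall (bd o ho), ∅, ?_, Finset.empty_subset _⟩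
      rw [hc, c0_nm]
      refine ⟨rfl, w, hw, fun x hx => ?_⟩
      rw [mem_fib, Finset.mem_insert] at hx
      rcases hx with hx | hx
      · rw [(Prod.mk.inj hx).2]
        exact h3
      · exact hF x (mem_fib.2 hx)
    · have ha' : a ∈ u.1 := by
        rcases Finset.mem_insert.1 ha with h | h
        · rw [h] at hc
          exact absurd rfl hc
        · exact h
      obtain ⟨h4, s, hs, hsu⟩ := u.2 a ha'
      refine ⟨h4, s, ?_, hsu.trans (Finset.subset_insert _ _)⟩
      have h5 : fib (insert (c0 o, asr w β γ) u.1) a.1 = fib u.1 a.1 := fib_congr fun x => by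
        rw [Finset.mem_insert]
        constructor
        · rintro (h | h)
          · exact absurd (Prod.mk.inj h).1 hc
          · exact h
        · exact Or.inr
      rw [h5]
      exact hs
  exact ⟨⟨_, hv⟩, Finset.subset_insert _ _, _, Finset.mem_insert_self _ _, h1, h2⟩

/-- the name of the tree -/
def tn (o : W) (ho : ∀ w, o ≤ w) (γ : Om1) (n : ℕ) (α : Om1) : Set (PP (bd o ho)) :=
  {p | ∃ x, (c0 o, x) ∈ p.1 ∧ (encA x).1 = α ∧ (encA x).2.1 = γ ∧ α < γ ∧
    hn γ n α * val x α ∈ pd.D}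

theorem tn_lt {γ : Om1} {n : ℕ} {α : Om1} {u : PP (bd o ho)} (h : u ∈ meets (tn o ho γ n α)) :
    α < γ := by
  obtain ⟨_, _, s, ⟨_, _, _, _, h1, _⟩, _⟩ := h u le_rfl
  exact h1

theorem tn_meets {γ : Om1} {n : ℕ} {α : Om1} (hαγ : α < γ) {u : PP (bd o ho)} {x : Om1}
    (hx : (c0 o, x) ∈ u.1) (h1 : (encA x).1 = α) (h2 : (encA x).2.1 = γ) :
    u ∈ meets (tn o ho γ n α) ↔ hn γ n α * val x α ∈ pd.D := by
  constructor
  · intro h
    obtain ⟨r, hr, s, ⟨x', hx', h1', h2', _, h3⟩, hrs⟩ := h u le_rfl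
    obtain ⟨w, _, hw⟩ := real r
    have h4 := hw x (hr hx) α h1.ge (by rw [h2]; exact hαγ.le)
    have h5 := hw x' (hrs hx') α h1'.ge (by rw [h2']; exact hαγ.le)
    rw [h1, h2] at h4
    rw [h1', h2'] at h5
    rw [← h4, h5]
    exact h3
  · intro h
    exact meets_of_mem ⟨x, hx, h1, h2, hαγ, h⟩

theorem down_ExtN {P : Type} [Preorder P] (t : Om1 → ℕ → Om1 → Set P) (γ : Om1) (n : ℕ)
    (δ : Om1) (m : ℕ) : Down (ExtN t γ n δ m) :=
  down_fall fun _ => down_fall fun _ => down_fand (down_fimp _ _) (down_fimp _ _)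

/-- comparability of two nodes is decided by one assertion -/
theorem mem_ExtN {ε γ : Om1} (hεγ : ε ≤ γ) {n m : ℕ} {u : PP (bd o ho)} {x : Om1}
    (hx : (c0 o, x) ∈ u.1) (h1 : (encA x).1 = ε) (h2 : (encA x).2.1 = γ)
    (h3 : ∀ α < ε, hn ε n α = hn γ m α * val x α) : u ∈ ExtN (tn o ho) ε n γ m := by
  intro α hα
  have key : ∀ q ≤ u, ∃ r ≤ q, r ∈ meets (tn o ho ε n α) ↔ r ∈ meets (tn o ho γ m α) := by
    intro q hq
    obtain ⟨r1, hr1, x1, hx1, h4, h5⟩ := dec q α ε
    obtain ⟨r2, hr2, x2, hx2, h6, h7⟩ := dec r1 α γ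
    refine ⟨r2, hr2.trans hr1, ?_⟩
    rw [tn_meets hα (hr2 hx1) h4 h5, tn_meets (hα.trans_le hεγ) hx2 h6 h7, h3 α hα]
    obtain ⟨w, _, hw⟩ := real r2
    have e0 := hw x ((hr2.trans (hr1.trans hq)) hx) α (by rw [h1]; exact hα.le)
      (by rw [h2]; exact hα.le.trans hεγ)
    have e1 := hw x1 (hr2 hx1) α h4.ge (by rw [h5]; exact hα.le)
    have e2 := hw x2 hx2 α h6.ge (by rw [h7]; exact hα.le.trans hεγ)
    rw [h1, h2] at e0
    rw [h4, h5] at e1
    rw [h6, h7] at e2
    have e3 : hn γ m α * val x α * val x1 α = hn γ m α * val x2 α := by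
      rw [← e0, ← e1, ← e2]
      group
    rw [e3]
  constructor
  · rw [mem_fimp]
    intro q hq hqm
    obtain ⟨r, hr, h⟩ := key q hq
    exact ⟨r, hr, h.1 (down_meets _ _ hqm _ hr)⟩
  · rw [mem_fimp]
    intro q hq hqm
    obtain ⟨r, hr, h⟩ := key q hq
    exact ⟨r, hr, h.2 (down_meets _ _ hqm _ hr)⟩

theorem rich_holds (p : PP (bd o ho)) (ε γ : Om1) (hεγ : ε < γ) (n k : ℕ) :
    p ∈ fex fun m : Fin k → ℕ => fand (fall fun i => ExtN (tn o ho) ε n γ (m i))
          (fall fun i => fall fun j => fall fun _ : i ≠ j => fall fun α => fall fun _ : ε ≤ α =>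
            fnot (fand (meets (tn o ho γ (m i) α)) (meets (tn o ho γ (m j) α)))) := by
  rw [mem_fex]
  intro q _
  obtain ⟨r, hr, x, hx, h1, h2⟩ := dec q ε γ
  have h3 : ∀ i : Fin k, ∃ m, ∀ α ≤ γ, hn γ m α =
      if α < ε then hn ε n α * (val x α)⁻¹ else pd.g i := fun i =>
    hn_surj γ (((hn_pc ε n).mul (val_pc x).inv).ite (IsPC.const _) ε)
  choose m hm using h3
  refine ⟨r, hr, m, ?_, ?_⟩
  · intro i
    apply mem_ExtN hεγ.le hx h1 h2
    intro α hα
    rw [hm i α (hα.trans hεγ).le, if_pos hα]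
    group
  · intro i j hij α hα r' _ hr'
    obtain ⟨h4, h5⟩ := hr'
    have hαγ : α < γ := tn_lt h4
    obtain ⟨s, hs, x1, hx1, h6, h7⟩ := dec r' α γ
    have h8 := (tn_meets hαγ hx1 h6 h7).1 (down_meets _ _ h4 _ hs)
    have h9 := (tn_meets hαγ hx1 h6 h7).1 (down_meets _ _ h5 _ hs)
    rw [hm i α hαγ.le, if_neg (not_lt.2 hα)] at h8
    rw [hm j α hαγ.le, if_neg (not_lt.2 hα)] at h9
    exact pd.disj i j _ (fun h => hij (Fin.ext h)) ⟨h8, h9⟩

theorem cover_holds (p : PP (bd o ho)) (γ : Om1) :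
    p ∈ fex fun n => fex fun m => fall fun α => fall fun _ : α < γ =>
        fimp (fnot (meets (tn o ho γ n α))) (meets (tn o ho γ m α)) := by
  obtain ⟨n, hn'⟩ := hn_surj γ (IsPC.const (1 : Gam))
  obtain ⟨m, hm⟩ := hn_surj γ (IsPC.const pd.c)
  refine mem_fex_of_mem n (down_fex _) (mem_fex_of_mem m
    (down_fall fun _ => down_fall fun _ => down_fimp _ _) ?_)
  intro α hα
  rw [mem_fimp]
  intro q _ hqm
  obtain ⟨r, hr, x, hx, h1, h2⟩ := dec q α γ
  refine ⟨r, hr, ?_⟩
  rw [tn_meets hα hx h1 h2, hm α hα.le]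
  apply pd.cov
  intro h3
  apply hqm r hr
  rw [tn_meets hα hx h1 h2, hn' α hα.le, one_mul]
  exact h3

theorem suslin_holds (p : PP (bd o ho)) (A : Om1 → ℕ → Set (PP (bd o ho))) :
    p ∈ fimp (fall fun a => fex fun b => fand (fground (a < b)) (fex fun n => meets (A b n)))
          (fex fun γ => fex fun δ => fand (fground (γ < δ)) (fex fun n => fex fun m =>
            fand (meets (A γ n)) (fand (meets (A δ m)) (ExtN (tn o ho) γ n δ m)))) := by
  rw [mem_fimp]
  intro q _ hqA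
  let U : Set Om1 := {b | ∃ n, ∃ s ≤ q, s ∈ meets (A b n)}
  have hU : ¬ U.Countable := by
    apply unb_not_countable (Z := fun b => b ∈ U)
    intro a
    obtain ⟨r, hr, b, hab, h1⟩ := mem_fex.1 (hqA a) q le_rfl
    obtain ⟨s, hs, n, h2⟩ := mem_fex.1 h1 r le_rfl
    exact ⟨b, hab, n, s, hs.trans hr, h2⟩
  have hUc : ∀ b ∈ U, ∃ n, ∃ s ≤ q, s ∈ meets (A b n) := fun b hb => hb
  have hPne : Nonempty (PP (bd o ho)) := ⟨q⟩
  choose! n s hs1 hs2 using hUc
  let r : Om1 → Cond Om1 W := fun b => insert (ct o, encN.symm (b, n b)) (s b).1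
  have hnt : ∀ (u : PP (bd o ho)) (x : Om1), (ct o, x) ∉ u.1 := fun u x hx =>
    t_notMem_Sall (bd o ho) (u.2 _ hx).1
  have hr : ∀ b ∈ U, Valid (Sall (bd o ho) ∪ {(bd o ho).t}) (r b) := by
    intro b _ a ha
    by_cases hc : a.1 = ct o
    · refine ⟨Or.inr hc, ∅, ?_, Finset.empty_subset _⟩
      have h1 : fib (r b) (ct o) = {encN.symm (b, n b)} := by
        ext x
        rw [mem_fib, Finset.mem_insert, Finset.mem_singleton]
        constructor
        · rintro (h | h)
          · exact (Prod.mk.inj h).2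
          · exact absurd h (hnt _ _)
        · rintro rfl
          exact Or.inl rfl
      rw [hc, h1, ct_nm]
      refine ⟨by simp, ?_⟩
      intro ν hν ν' hν' hne
      rw [Finset.mem_singleton] at hν hν'
      exact absurd (hν.trans hν'.symm) hne
    · have ha' : a ∈ (s b).1 := by
        rcases Finset.mem_insert.1 ha with h | h
        · rw [h] at hc
          exact absurd rfl hc
        · exact h
      obtain ⟨h4, s', hs', hsu⟩ := (s b).2 a ha'
      refine ⟨Or.inl h4, s', ?_, hsu.trans (Finset.subset_insert _ _)⟩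
      have h5 : fib (r b) a.1 = fib (s b).1 a.1 := fib_congr fun x => by
        rw [Finset.mem_insert]
        constructor
        · rintro (h | h)
          · exact absurd (Prod.mk.inj h).1 hc
          · exact h
        · exact Or.inr
      rw [h5]
      exact hs'
  obtain ⟨b, hb, b', hb', hne, v, hv, h1, h2⟩ := CCCs.family (CCCs_Sall (bd o ho)) hU r hr
  have key : ∀ b ∈ U, ∀ b' ∈ U, b < b' → r b ⊆ v → r b' ⊆ v →
      ∃ u ≤ q, u ∈ (fex fun γ => fex fun δ => fand (fground (γ < δ)) (fex fun n => fex fun m =>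
            fand (meets (A γ n)) (fand (meets (A δ m)) (ExtN (tn o ho) γ n δ m)))) := by
    intro b hb b' hb' hlt h1 h2
    let u : PP (bd o ho) :=
      ⟨restr (Sall (bd o ho)) v, valid_restr' (closed_drop _ (Set.Subset.refl _)) hv⟩
    have hus : ∀ k : Om1, r k ⊆ v → u ≤ s k := by
      intro k hk
      rw [PP.le_def]
      exact subset_restr (Finset.Subset.trans (Finset.subset_insert _ _) hk)
        fun a ha => ((s k).2 a ha).1
    have hm1 : encN.symm (b, n b) ∈ fib v (ct o) :=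
      mem_fib.2 (h1 (Finset.mem_insert_self _ _))
    have hm2 : encN.symm (b', n b') ∈ fib v (ct o) :=
      mem_fib.2 (h2 (Finset.mem_insert_self _ _))
    obtain ⟨_, s0, hs0, hs0v⟩ := hv _ (mem_fib.1 hm1)
    simp only at hs0
    rw [ct_nm] at hs0
    have hl1 : lev (encN.symm (b, n b)) = b := by
      simp [lev]
    have hl2 : lev (encN.symm (b', n b')) = b' := by
      simp [lev]
    obtain ⟨x, hx, h3, h4, h5⟩ := hs0.2 _ hm1 _ hm2 (by
      intro h
      have := encN.symm.injective h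
      exact absurd (Prod.mk.inj this).1 hlt.ne) (by rw [hl1, hl2]; exact hlt.le)
    rw [hl1] at h3 h5
    rw [hl2] at h4
    have hxu : (c0 o, x) ∈ u.1 := mem_restr.2 ⟨hs0v hx, z_mem_Sall (bd o ho)⟩
    have hext : u ∈ ExtN (tn o ho) b (n b) b' (n b') := by
      apply mem_ExtN hlt.le hxu h3 h4
      intro α hα
      have := h5 α hα
      simpa [hN, val] using this
    refine ⟨u, (hus b h1).trans (hs1 b hb), ?_⟩
    refine mem_fex_of_mem b (down_fex _) (mem_fex_of_mem b' (down_fand (down_fground _)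
      (down_fex _)) ⟨hlt, mem_fex_of_mem (n b) (down_fex _) (mem_fex_of_mem (n b')
        (down_fand (down_meets _) (down_fand (down_meets _) (down_ExtN _ _ _ _ _))) ⟨?_, ?_, hext⟩)⟩)
    · exact down_meets _ _ (hs2 b hb) _ (hus b h1)
    · exact down_meets _ _ (hs2 b' hb') _ (hus b' h2)
  rcases lt_or_gt_of_ne hne with h | h
  · exact key b hb b' hb' h h1 h2
  · exact key b' hb' b hb h h2 h1

/-- The iteration forces that there is a rich Suslin tree. -/
theorem richSuslinHolds (p : PP (bd o ho)) : p ∈ RichSuslinHolds (PP (bd o ho)) := by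
  refine mem_fex_of_mem (tn o ho) ?_ ⟨?_, ?_, ?_, ?_⟩
  · refine down_fand ?_ (down_fand ?_ (down_fand ?_ ?_))
    · exact down_fall fun _ => down_fall fun _ => down_fall fun _ => down_fimp _ _
    · exact down_fall fun _ => down_fall fun _ => down_fall fun _ => down_fall fun _ =>
        down_fall fun _ => down_fex _
    · exact down_fall fun _ => down_fex _
    · exact down_fall fun _ => down_fimp _ _
  · intro γ n α
    rw [mem_fimp]
    intro q _ hq
    exact ⟨q, le_rfl, tn_lt hq⟩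
  · intro ε γ hεγ n k
    exact rich_holds p ε γ hεγ n k
  · intro γ
    exact cover_holds p γ
  · intro A
    exact suslin_holds p A

end Run7.h144
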