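import Pool.Agent.Run7.h144.Defs
import Pool.Agent.W684.FM.Ambient

/-!
# From a rich Suslin tree to a Lindelöf space whose function space contains a compact set of
uncountable tightness
-/

set_option autoImplicit false

namespace Run7.h144

open Classical Topology Set Pool.Agent.W684.FM

/-! ### Generalities about `ω₁` -/

theorem countable_Iic (a : Om1) : (Iic a).Countable := by
  have h3 := Cardinal.mk_Iio_ord_toType a
  have h4 : (Iio a).Countable := by
    rw [← Cardinal.le_aleph0_iff_set_countable]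
    have : Cardinal.mk (Set.Iio a) < Order.succ Cardinal.aleph0 := by
      rw [← Cardinal.aleph_zero, ← Cardinal.aleph_succ]
      simpa using h3
    exact Order.lt_succ_iff.1 this
  exact (h4.insert a).mono fun b (hb : b ≤ a) => by
    rcases hb.lt_or_eq with h | h
    · exact Or.inr h
    · exact Or.inl h

theorem exists_bound_set {s : Set Om1} (hs : s.Countable) : ∃ a, ∀ b ∈ s, b < a := by
  rcases s.eq_empty_or_nonempty with rfl | hne
  · exact ⟨Classical.arbitrary _, by simp⟩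
  · obtain ⟨g, rfl⟩ := hs.exists_eq_range hne
    obtain ⟨a, ha⟩ := exists_bound g
    obtain ⟨b, hb⟩ := exists_gt_om1 a
    refine ⟨b, ?_⟩
    rintro _ ⟨n, rfl⟩
    exact (ha n).trans_lt hb

theorem unb_not_countable {Z : Om1 → Prop} (hZ : ∀ a, ∃ b, a < b ∧ Z b) :
    ¬ {b | Z b}.Countable := by
  intro h
  obtain ⟨a, ha⟩ := exists_bound_set h
  obtain ⟨b, hb, hb'⟩ := hZ a
  exact absurd (ha b hb') (not_lt.2 hb.le)

/-- thinning out an unbounded set of countable ordinals -/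
theorem exists_thin {Z : Set Om1} (hZ : ∀ a, ∃ b, a < b ∧ b ∈ Z) (h : Om1 → Om1) :
    ∃ Z₀ ⊆ Z, (∀ a, ∃ b, a < b ∧ b ∈ Z₀) ∧ ∀ b ∈ Z₀, ∀ c ∈ Z₀, b < c → h b < c := by
  obtain ⟨Z₀, hmax⟩ : ∃ Z₀, Maximal (fun Z₀ : Set Om1 => Z₀ ⊆ Z ∧
      ∀ b ∈ Z₀, ∀ c ∈ Z₀, b < c → h b < c) Z₀ := by
    apply zorn_subset {Z₀ : Set Om1 | Z₀ ⊆ Z ∧ ∀ b ∈ Z₀, ∀ c ∈ Z₀, b < c → h b < c}
    intro c hc hchain
    refine ⟨⋃₀ c, ⟨sUnion_subset fun A hA => (hc hA).1, ?_⟩,
      fun s hs => subset_sUnion_of_mem hs⟩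
    rintro p ⟨A, hA, hpA⟩ q ⟨B, hB, hqB⟩ hlt
    rcases hchain.total hA hB with h1 | h1
    · exact (hc hB).2 p (h1 hpA) q hqB hlt
    · exact (hc hA).2 p hpA q (h1 hqB) hlt
  obtain ⟨⟨h1, h2⟩, h3⟩ := hmax
  refine ⟨Z₀, h1, ?_, h2⟩
  by_contra hcon
  push Not at hcon
  obtain ⟨a, ha⟩ := hcon
  have hc : Z₀.Countable := (countable_Iic a).mono fun b hb => by
    by_contra h5
    exact ha b (not_le.1 h5) hb
  obtain ⟨b, hb⟩ := exists_bound_set (hc.image h)
  obtain ⟨z, hz, hzZ⟩ := hZ (max a b)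
  have hzn : z ∉ Z₀ := ha z ((le_max_left _ _).trans_lt hz)
  apply hzn
  refine h3 (y := insert z Z₀) ⟨insert_subset hzZ h1, ?_⟩ (subset_insert _ _) (mem_insert _ _)
  rintro p (rfl | hp) q (rfl | hq) hlt
  · exact absurd hlt (lt_irrefl _)
  · exfalso
    have : q ≤ a := by
      by_contra h5
      exact ha q (not_le.1 h5) hq
    exact absurd (hlt.trans_le (this.trans (le_max_left a b))) (not_lt.2 hz.le)
  · exact (hb _ ⟨p, hp, rfl⟩).trans ((le_max_right _ _).trans_lt hz)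
  · exact h2 p hp q hq hlt

section Tree

variable (t : Om1 → ℕ → Om1 → Prop)

/-- the set named by a node -/
def Ls (ν : Om1 × ℕ) : Set Om1 := {α | t ν.1 ν.2 α}

/-- the Lindelöf space -/
def YY : Type := {s : Set Om1 // ∃ ν : Om1 × ℕ, Ls t ν = s}

variable {t}

/-- the evaluation at a point -/
noncomputable def pe (α : Om1) : YY t → ℝ := fun y => if α ∈ y.1 then 1 else 0

variable (t) in
/-- the compact set -/
def KK : Set (YY t → ℝ) := closure (range pe)

noncomputable instance : TopologicalSpace (YY t) :=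
  TopologicalSpace.induced (fun y (f : KK t) => f.1 y) inferInstance

theorem pe_mem (α : Om1) : (pe α : YY t → ℝ) ∈ KK t := subset_closure ⟨α, rfl⟩

theorem KK_val {f : YY t → ℝ} (hf : f ∈ KK t) (y : YY t) : f y = 0 ∨ f y = 1 := by
  have hcl : IsClosed {f : YY t → ℝ | f y = 0 ∨ f y = 1} :=
    (isClosed_eq (continuous_apply y) continuous_const).union
      (isClosed_eq (continuous_apply y) continuous_const)
  refine closure_minimal ?_ hcl hf
  rintro _ ⟨α, rfl⟩
  by_cases h : α ∈ y.1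
  · right
    simp [pe, h]
  · left
    simp [pe, h]

theorem isCompact_KK : IsCompact (KK t) := by
  have h1 : IsCompact (Set.pi univ fun _ : YY t => Icc (0 : ℝ) 1) :=
    isCompact_univ_pi fun _ => isCompact_Icc
  refine h1.of_isClosed_subset isClosed_closure ?_
  intro f hf y _
  rcases KK_val hf y with h | h
  · rw [h]
    exact ⟨le_rfl, zero_le_one⟩
  · rw [h]
    exact ⟨zero_le_one, le_rfl⟩

theorem KK_cont {f : YY t → ℝ} (hf : f ∈ KK t) : Continuous f := by
  have h1 : Continuous (fun (y : YY t) (g : KK t) => g.1 y) := continuous_induced_dom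
  exact (continuous_apply (⟨f, hf⟩ : KK t)).comp h1

instance : T35Space (YY t) := by
  have : IsEmbedding (fun (y : YY t) (f : KK t) => f.1 y) := by
    refine ⟨⟨rfl⟩, ?_⟩
    intro y y' h
    apply Subtype.ext
    ext α
    have h1 := congrFun h ⟨pe α, pe_mem α⟩
    simp only [pe] at h1
    by_cases h2 : α ∈ y.1 <;> by_cases h3 : α ∈ y'.1 <;> simp [h2, h3] at h1 ⊢
  exact this.t35Space

theorem agree {S : Set Om1} {f : YY t → ℝ} (hf : f ∈ closure (pe '' S)) {y y' : YY t}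
    (h : ∀ α ∈ S, α ∈ y.1 ↔ α ∈ y'.1) : f y = f y' := by
  have hcl : IsClosed {f : YY t → ℝ | f y = f y'} :=
    isClosed_eq (continuous_apply y) (continuous_apply y')
  refine closure_minimal ?_ hcl hf
  rintro _ ⟨α, hα, rfl⟩
  simp only [pe, mem_setOf_eq, h α hα]

theorem vanish {S : Set Om1} {f : YY t → ℝ} (hf : f ∈ closure (pe '' S)) {y : YY t}
    (h : ∀ α ∈ S, α ∉ y.1) : f y = 0 := by
  have hcl : IsClosed {f : YY t → ℝ | f y = 0} :=
    isClosed_eq (continuous_apply y) continuous_const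
  refine closure_minimal ?_ hcl hf
  rintro _ ⟨α, hα, rfl⟩
  simp only [pe, mem_setOf_eq, if_neg (h α hα)]

theorem disj {S : Set Om1} {f : YY t → ℝ} (hf : f ∈ closure (pe '' S)) {y y' : YY t}
    (h : ∀ α ∈ S, α ∈ y.1 → α ∉ y'.1) : f y = 0 ∨ f y' = 0 := by
  have hcl : IsClosed {f : YY t → ℝ | f y = 0 ∨ f y' = 0} :=
    (isClosed_eq (continuous_apply y) continuous_const).union
      (isClosed_eq (continuous_apply y') continuous_const)
  refine closure_minimal ?_ hcl hf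
  rintro _ ⟨α, hα, rfl⟩
  by_cases h1 : α ∈ y.1
  · right
    simp only [pe, if_neg (h α hα h1)]
  · left
    simp only [pe, if_neg h1]

theorem cover_val {S : Set Om1} {f : YY t → ℝ} (hf : f ∈ closure (pe '' S)) {y y' : YY t}
    (h : ∀ α ∈ S, α ∉ y.1 → α ∈ y'.1) : f y = 1 ∨ f y' = 1 := by
  have hcl : IsClosed {f : YY t → ℝ | f y = 1 ∨ f y' = 1} :=
    (isClosed_eq (continuous_apply y) continuous_const).union
      (isClosed_eq (continuous_apply y') continuous_const)
  refine closure_minimal ?_ hcl hf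
  rintro _ ⟨α, hα, rfl⟩
  by_cases h1 : α ∈ y.1
  · left
    simp only [pe, if_pos h1]
  · right
    simp only [pe, if_pos (h α hα h1)]

theorem mem_of_one {f : YY t → ℝ} (hf : f ∈ KK t) {y : YY t} (h : f y = 1) :
    f ∈ closure (pe '' y.1) := by
  have h1 : (range pe : Set (YY t → ℝ)) = pe '' y.1 ∪ pe '' y.1ᶜ := by
    rw [← image_union, union_compl_self, image_univ]
  rw [KK, h1, closure_union] at hf
  rcases hf with h2 | h2
  · exact h2
  · have := vanish h2 (y := y) fun α hα => hα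
    rw [h] at this
    exact absurd this one_ne_zero

variable (hbdd : ∀ γ n α, t γ n α → α < γ)
  (hrich : ∀ ε γ : Om1, ε < γ → ∀ (n k : ℕ), ∃ m : Fin k → ℕ, (∀ i, Ext t ε n γ (m i)) ∧
      ∀ i j, i ≠ j → ∀ α, ε ≤ α → ¬ (t γ (m i) α ∧ t γ (m j) α))
  (hcov : ∀ γ, ∃ n m, ∀ α, α < γ → ¬ t γ n α → t γ m α)
  (hsus : ∀ A : Om1 → ℕ → Prop, (∀ a, ∃ b, a < b ∧ ∃ n, A b n) →
      ∃ γ δ, γ < δ ∧ ∃ n m, A γ n ∧ A δ m ∧ Ext t γ n δ m)

/-- the point of the space named by a node -/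
def pt (γ : Om1) (n : ℕ) : YY t := ⟨Ls t (γ, n), _, rfl⟩

theorem mem_pt {γ : Om1} {n : ℕ} {α : Om1} : α ∈ (pt γ n : YY t).1 ↔ t γ n α := Iff.rfl

theorem Ext.trans {γ δ η : Om1} {n m k : ℕ} (h1 : Ext t γ n δ m) (h2 : Ext t δ m η k)
    (h : γ ≤ δ) : Ext t γ n η k := fun α hα =>
  ⟨fun h3 => (h2 α (hα.trans_le h)).1 ((h1 α hα).1 h3),
    fun h3 => (h1 α hα).2 ((h2 α (hα.trans_le h)).2 h3)⟩

include hsus in
/-- an uncountable set of nodes is dense above some node -/
theorem exists_dense_above {A : Om1 → ℕ → Prop} (hA : ∀ a, ∃ b, a < b ∧ ∃ n, A b n) :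
    ∃ ε n, ∀ γ m, ε ≤ γ → Ext t ε n γ m → ∃ δ k, γ ≤ δ ∧ Ext t γ m δ k ∧ A δ k := by
  by_contra hcon
  push Not at hcon
  choose φ ψ h1 h2 h3 using hcon
  let Z : Set Om1 := {b | ∃ n, A b n}
  have hZ : ∀ b ∈ Z, ∃ n, A b n := fun b hb => hb
  choose! ν hν using hZ
  obtain ⟨Z₀, hZ₀, h4, h5⟩ := exists_thin (Z := Z) hA fun b => φ b (ν b)
  obtain ⟨γ, δ, hlt, n, m, ⟨b, hb, h6, h7⟩, ⟨c, hc, h8, h9⟩, h10⟩ :=
    hsus (fun γ n => ∃ b ∈ Z₀, φ b (ν b) = γ ∧ ψ b (ν b) = n) (by
      intro a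
      obtain ⟨b, hb, hb'⟩ := h4 a
      exact ⟨φ b (ν b), hb.trans_le (h1 b (ν b)), _, b, hb', rfl, rfl⟩)
  subst h6 h7 h8 h9
  have hbc : b < c := by
    rcases lt_trichotomy b c with h | h | h
    · exact h
    · subst h
      exact absurd hlt (lt_irrefl _)
    · have := (h5 c hc b hb h).trans_le (h1 b (ν b))
      exact absurd hlt (not_lt.2 this.le)
  have hlt2 : φ b (ν b) < c := h5 b hb c hc hbc
  refine h3 b (ν b) c (ν c) hlt2.le ?_ (hν c (hZ₀ hc))
  intro α hα
  have h11 := h10 α hα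
  have h12 := h2 c (ν c) α (hα.trans hlt2)
  exact ⟨fun h => h12.2 (h11.1 h), fun h => h11.2 (h12.1 h)⟩

include hbdd hrich hsus in
/-- complete accumulation points -/
theorem exists_accumulation {A : Set (YY t)} (hA : ¬ A.Countable) :
    ∃ y : YY t, ∀ U : Set (YY t), IsOpen U → y ∈ U → ¬ (U ∩ A).Countable := by
  choose ν hν using fun y : YY t => y.2
  have hinj : Function.Injective ν := fun y y' h => Subtype.ext (by rw [← hν, ← hν, h])
  have hpt : ∀ y : YY t, pt (ν y).1 (ν y).2 = y := fun y => Subtype.ext (hν y)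
  have hbdd_of : ∀ (B : Set (YY t)) (a : Om1), (∀ y ∈ B, (ν y).1 ≤ a) → B.Countable := by
    intro B a hB
    refine Set.countable_of_injective_of_countable_image hinj.injOn
      (((countable_Iic a).prod (Set.countable_univ (α := ℕ))).mono ?_)
    rintro _ ⟨y, hy, rfl⟩
    exact ⟨hB y hy, mem_univ _⟩
  obtain ⟨ε, n, hd⟩ := exists_dense_above hsus (A := fun γ n => ∃ y ∈ A, ν y = (γ, n)) (by
    intro a
    by_contra hcon
    push Not at hcon
    apply hA
    apply hbdd_of A a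
    intro y hy
    by_contra h1
    exact hcon (ν y).1 (not_le.1 h1) (ν y).2 y hy rfl)
  refine ⟨pt ε n, fun U hU hyU => ?_⟩
  obtain ⟨V, hV, rfl⟩ := isOpen_induced_iff.1 hU
  obtain ⟨I, u, h1, h2⟩ := isOpen_pi_iff.1 hV _ hyU
  -- a bound for the supports
  obtain ⟨γ, hεγ, hγ⟩ : ∃ γ, ε < γ ∧ ∀ f ∈ I, (∀ y, f.1 y = 0) ∨ f.1 ∈ closure (pe '' Iio γ) := by
    have h3 : ∀ f : KK t, ∃ γ, (∀ y, f.1 y = 0) ∨ f.1 ∈ closure (pe '' Iio γ) := by
      intro f
      by_cases h4 : ∀ y, f.1 y = 0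
      · exact ⟨ε, Or.inl h4⟩
      · push Not at h4
        obtain ⟨y, hy⟩ := h4
        have h5 := mem_of_one f.2 ((KK_val f.2 y).resolve_left hy)
        refine ⟨(ν y).1, Or.inr (closure_mono (image_mono ?_) h5)⟩
        intro α hα
        rw [← hν y] at hα
        exact hbdd _ _ _ hα
    choose g hg using h3
    obtain ⟨γ, hγ⟩ := exists_bound_set (s := insert ε (g '' (I : Set (KK t))))
      ((I.countable_toSet.image g).insert ε)
    refine ⟨γ, hγ ε (mem_insert _ _), fun f hf => ?_⟩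
    refine (hg f).imp id fun h => closure_mono (image_mono ?_) h
    exact Iio_subset_Iio (hγ _ (mem_insert_of_mem _ ⟨f, hf, rfl⟩)).le
  obtain ⟨m, hm1, hm2⟩ := hrich ε γ hεγ n (I.card + 1)
  obtain ⟨i, hi⟩ : ∃ i, ∀ f ∈ I, f.1 ∈ closure (pe '' Ico ε γ) → f.1 (pt γ (m i)) = 0 := by
    by_contra hcon
    push Not at hcon
    choose g hg1 hg2 hg3 using hcon
    have hginj : Function.Injective g := by
      intro i j hij
      by_contra hne
      have h5 := disj (hg2 i) (y := pt γ (m i)) (y' := pt γ (m j)) (fun α hα h6 h7 =>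
        hm2 i j hne α hα.1 ⟨h6, h7⟩)
      rcases h5 with h6 | h6
      · exact hg3 i h6
      · rw [hij] at h6
        exact hg3 j h6
    have h6 := Finset.card_le_card_of_injOn (s := Finset.univ) (t := I) g (fun i _ => hg1 i)
      hginj.injOn
    rw [Finset.card_univ, Fintype.card_fin] at h6
    omega
  -- points above the node `(γ, m i)` belong to the neighbourhood
  have key : ∀ δ k, γ ≤ δ → Ext t γ (m i) δ k →
      pt δ k ∈ (fun (y : YY t) (f : KK t) => f.1 y) ⁻¹' V := by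
    intro δ k hδ hext
    apply h2
    intro f hf
    have h3 : f.1 (pt δ k) = f.1 (pt ε n) := by
      rcases hγ f hf with h4 | h4
      · rw [h4, h4]
      · have h5 : Iio γ = Iio ε ∪ Ico ε γ := (Iio_union_Ico_eq_Iio hεγ.le).symm
        rw [h5, image_union, closure_union] at h4
        rcases h4 with h6 | h6
        · apply agree h6
          intro α hα
          have h7 := (hm1 i).trans hext hεγ.le α hα
          exact ⟨h7.2, h7.1⟩
        · have h7 : f.1 (pt ε n) = 0 := vanish h6 fun α hα h8 =>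
            absurd (hbdd _ _ _ h8) (not_lt.2 hα.1)
          rw [h7, ← hi f hf h6]
          apply agree h6
          intro α hα
          have h8 := hext α hα.2
          exact ⟨h8.2, h8.1⟩
    show f.1 (pt δ k) ∈ u f
    rw [h3]
    exact (h1 f hf).2
  intro hcount
  obtain ⟨a, ha⟩ := exists_bound_set (hcount.image fun y => (ν y).1)
  obtain ⟨b, hb⟩ := exists_gt_om1 (max a γ)
  obtain ⟨m', hm', -⟩ := hrich γ b ((le_max_right _ _).trans_lt hb) (m i) 1
  have h3 := (hm1 i).trans (hm' 0) hεγ.le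
  obtain ⟨δ, k, hδ, h4, y, hyA, hy⟩ := hd b (m' 0)
    (hεγ.le.trans ((le_max_right _ _).trans hb.le)) h3
  have h5 : γ ≤ b := (le_max_right _ _).trans hb.le
  have h6 := key δ k (h5.trans hδ) ((hm' 0).trans h4 h5)
  have h7 : pt δ k = y := by
    have := hpt y
    rw [hy] at this
    exact this
  rw [h7] at h6
  have h8 := ha _ ⟨y, ⟨h6, hyA⟩, rfl⟩
  simp only [hy] at h8
  exact absurd h8 (not_lt.2 ((le_max_left _ _).trans (hb.le.trans hδ)))

include hbdd hrich hsus in
theorem lindelof_YY : LindelofSpace (YY t) := by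
  constructor
  obtain ⟨e⟩ : Nonempty (Om1 ≃ Om1 × ℕ) := by
    rw [← Cardinal.eq]
    simp
  let g : Om1 → YY t := fun β => pt (e β).1 (e β).2
  have hg : ∀ y : YY t, ∃ β, g β = y := by
    intro y
    obtain ⟨⟨γ, n⟩, h⟩ := y.2
    refine ⟨e.symm (γ, n), ?_⟩
    simp only [g, Equiv.apply_symm_apply]
    exact Subtype.ext h
  apply isLindelof_of_countable_subcover
  intro ι U hU hcov
  by_contra hcon
  push Not at hcon
  have h1 : ∀ β, ∃ i, g β ∈ U i := fun β => mem_iUnion.1 (hcov (mem_univ _))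
  choose i hi using h1
  have h2 : ∀ α, ∃ z, ∀ β ≤ α, z ∉ U (i β) := by
    intro α
    have h3 := hcon (i '' Iic α) ((countable_Iic α).image i)
    rw [not_subset] at h3
    obtain ⟨z, _, hz⟩ := h3
    refine ⟨z, fun β hβ h4 => hz ?_⟩
    exact mem_biUnion (mem_image_of_mem i hβ) h4
  choose z hz using h2
  have h3 : ¬ (range z).Countable := by
    intro h4
    choose c hc using hg
    obtain ⟨a, ha⟩ := exists_bound_set (h4.image c)
    apply hz a (c (z a)) (ha _ ⟨z a, ⟨a, rfl⟩, rfl⟩).le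
    have := hi (c (z a))
    rwa [hc] at this
  obtain ⟨y, hy⟩ := exists_accumulation hbdd hrich hsus h3
  obtain ⟨β, rfl⟩ := hg y
  apply hy (U (i β)) (hU _) (hi β)
  refine ((countable_Iic β).image z).mono ?_
  rintro _ ⟨h4, α, rfl⟩
  refine ⟨α, ?_, rfl⟩
  by_contra h5
  exact hz α β (not_le.1 h5).le h4

theorem tendsto_pe (hbdd : ∀ γ n α, t γ n α → α < γ) :
    Filter.Tendsto (pe : Om1 → YY t → ℝ) Filter.atTop (𝓝 0) := by
  rw [tendsto_pi_nhds]
  intro y
  obtain ⟨⟨γ, n⟩, h⟩ := y.2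
  apply tendsto_const_nhds.congr'
  filter_upwards [Filter.eventually_ge_atTop γ] with α hα
  have : α ∉ y.1 := by
    rw [← h]
    intro h1
    exact absurd (hbdd _ _ _ h1) (not_lt.2 hα)
  simp [pe, this]

include hcov in
theorem zero_notMem {C : Set (YY t → ℝ)} (hC : C ⊆ range pe) (hc : C.Countable) :
    (0 : YY t → ℝ) ∉ closure C := by
  intro h0
  have h1 : ∀ f ∈ C, ∃ α, pe α = f := fun f hf => hC hf
  choose! a ha using h1
  obtain ⟨γ, hγ⟩ := exists_bound_set (hc.image a)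
  obtain ⟨n, m, hnm⟩ := hcov γ
  have h2 : (0 : YY t → ℝ) ∈ closure (pe '' Iio γ) := by
    refine closure_mono ?_ h0
    intro f hf
    exact ⟨a f, hγ _ ⟨f, hf, rfl⟩, ha f hf⟩
  rcases cover_val h2 (y := pt γ n) (y' := pt γ m) fun α hα h3 => hnm γ |> fun _ => hnm α hα h3 with
    h | h
  · simp at h
  · simp at h

end Tree

end Run7.h144
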